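import Mathlib
import Pool.Agent.W66.CE

set_option autoImplicit false

/-!
# The curves `log (e^{rt} + e^{at} + η e^{bt} + 1)` with `a, b ≤ 5 r / 6`
-/

namespace Pool.Agent.X37.RB

open MeasureTheory Set Filter Topology
open Pool.Agent.H447R2.ML (Loc)
open Pool.Agent.W66C (Cur)

/-- the value -/
noncomputable def Sc (r a b : ℕ) (η t : ℝ) : ℝ :=
  Real.exp (r * t) + (Real.exp (a * t) + η * Real.exp (b * t) + 1)

/-- its first derivative -/
noncomputable def Sc1 (r a b : ℕ) (η t : ℝ) : ℝ :=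
  r * Real.exp (r * t) + (a * Real.exp (a * t) + η * (b * Real.exp (b * t)))

/-- its second derivative -/
noncomputable def Sc2 (r a b : ℕ) (η t : ℝ) : ℝ :=
  r ^ 2 * Real.exp (r * t) + (a ^ 2 * Real.exp (a * t) + η * (b ^ 2 * Real.exp (b * t)))

/-- the curve -/
noncomputable def yc (r a b : ℕ) (η t : ℝ) : ℝ := Real.log (Sc r a b η t)

/-- its slope -/
noncomputable def yc1 (r a b : ℕ) (η t : ℝ) : ℝ := Sc1 r a b η t / Sc r a b η t

/-- its curvature -/
noncomputable def yc2 (r a b : ℕ) (η t : ℝ) : ℝ :=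
  (Sc2 r a b η t * Sc r a b η t - Sc1 r a b η t * Sc1 r a b η t) / (Sc r a b η t) ^ 2

section

variable {r a b : ℕ} {η t : ℝ}

lemma Sc_gt (hη : 0 ≤ η) : Real.exp (r * t) + 1 < Sc r a b η t := by
  unfold Sc
  have h1 := Real.exp_pos ((a : ℝ) * t)
  have h2 := mul_nonneg hη (Real.exp_pos ((b : ℝ) * t)).le
  linarith

lemma Sc_pos (hη : 0 ≤ η) : 0 < Sc r a b η t := by
  have h1 := Sc_gt (r := r) (a := a) (b := b) (t := t) hη
  have h2 := Real.exp_pos ((r : ℝ) * t)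
  linarith

lemma hasDeriv_exp_mul (c t : ℝ) : HasDerivAt (fun t : ℝ => Real.exp (c * t)) (c * Real.exp (c * t)) t := by
  have h : HasDerivAt (fun t : ℝ => c * t) c t := by simpa using (hasDerivAt_id t).const_mul c
  have h2 := h.exp
  rwa [mul_comm] at h2

lemma Sc_deriv : HasDerivAt (Sc r a b η) (Sc1 r a b η t) t := by
  unfold Sc Sc1
  exact (hasDeriv_exp_mul r t).add (((hasDeriv_exp_mul a t).add
    ((hasDeriv_exp_mul b t).const_mul η)).add_const 1)

lemma Sc1_deriv : HasDerivAt (Sc1 r a b η) (Sc2 r a b η t) t := by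
  have h := ((hasDeriv_exp_mul r t).const_mul (r : ℝ)).add (((hasDeriv_exp_mul a t).const_mul
    (a : ℝ)).add (((hasDeriv_exp_mul b t).const_mul (b : ℝ)).const_mul η))
  have e : (r : ℝ) * (r * Real.exp (r * t)) + ((a : ℝ) * (a * Real.exp (a * t)) +
      η * ((b : ℝ) * (b * Real.exp (b * t)))) = Sc2 r a b η t := by
    unfold Sc2; ring
  rw [e] at h
  exact h

lemma yc_deriv (hη : 0 ≤ η) : HasDerivAt (yc r a b η) (yc1 r a b η t) t :=
  Sc_deriv.log (Sc_pos hη).ne'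

lemma yc1_deriv (hη : 0 ≤ η) : HasDerivAt (yc1 r a b η) (yc2 r a b η t) t :=
  Sc1_deriv.div Sc_deriv (Sc_pos hη).ne'

lemma yc2_cont (hη : 0 ≤ η) : Continuous (yc2 r a b η) := by
  unfold yc2
  refine Continuous.div ?_ ?_ fun t => (pow_pos (Sc_pos hη) 2).ne'
  · unfold Sc2 Sc Sc1; fun_prop
  · unfold Sc; fun_prop

/-- the lower order terms are small -/
lemma tail_small (hη : 0 ≤ η) (hη1 : η ≤ 1) (ht : 0 ≤ t) (ha : 6 * a ≤ 5 * r) (hb : 6 * b ≤ 5 * r) :
    (Real.exp (a * t) + η * Real.exp (b * t) + 1) / Sc r a b η t ≤ 3 * Real.exp (-(r * t / 6)) := by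
  have ha' : 6 * (a : ℝ) ≤ 5 * r := by exact_mod_cast ha
  have hb' : 6 * (b : ℝ) ≤ 5 * r := by exact_mod_cast hb
  have hr0 : (0 : ℝ) ≤ r := Nat.cast_nonneg _
  set M := Real.exp (5 / 6 * (r * t)) with hM
  have h1 : Real.exp (a * t) ≤ M := Real.exp_le_exp.2 (by nlinarith)
  have h2 : Real.exp (b * t) ≤ M := Real.exp_le_exp.2 (by nlinarith)
  have h3 : 1 ≤ M := Real.one_le_exp (by positivity)
  have h4 : η * Real.exp (b * t) ≤ M := by
    have := Real.exp_pos ((b : ℝ) * t)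
    nlinarith
  have hS := Sc_gt (r := r) (a := a) (b := b) (t := t) hη
  rw [div_le_iff₀ (Sc_pos hη)]
  have h5 : M = Real.exp (-(r * t / 6)) * Real.exp (r * t) := by
    rw [hM, ← Real.exp_add]; congr 1; ring
  have h6 := Real.exp_pos (-((r : ℝ) * t / 6))
  calc Real.exp (a * t) + η * Real.exp (b * t) + 1 ≤ 3 * M := by linarith
    _ = 3 * Real.exp (-(r * t / 6)) * Real.exp (r * t) := by rw [h5]; ring
    _ ≤ 3 * Real.exp (-(r * t / 6)) * Sc r a b η t :=
        mul_le_mul_of_nonneg_left (by linarith) (by positivity)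

/-- the estimates for the curve -/
lemma yc_est (hη : 0 ≤ η) (hη1 : η ≤ 1) (ht : 0 ≤ t) (ha : 6 * a ≤ 5 * r) (hb : 6 * b ≤ 5 * r)
    {τ : ℝ} (hτ : 3 * Real.exp (-(r * t / 6)) ≤ τ) (hr : 1 ≤ r) (hsm : 4 * (r : ℝ) ^ 2 * τ ≤ 1 / 8) :
    (r * t ≤ yc r a b η t ∧ yc r a b η t ≤ r * t + 1) ∧ |yc1 r a b η t - r| ≤ 1 / 8 ∧
      |yc2 r a b η t| ≤ 1 := by
  have hr1 : (1 : ℝ) ≤ r := by exact_mod_cast hr
  have ha' : 6 * (a : ℝ) ≤ 5 * r := by exact_mod_cast ha
  have hb' : 6 * (b : ℝ) ≤ 5 * r := by exact_mod_cast hb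
  have ha0 : (0 : ℝ) ≤ a := Nat.cast_nonneg _
  have hb0 : (0 : ℝ) ≤ b := Nat.cast_nonneg _
  have hτ0 : 0 < τ := lt_of_lt_of_le (by positivity) hτ
  set S := Sc r a b η t with hS
  set A := Real.exp (a * t) with hA
  set B := η * Real.exp (b * t) with hB
  have hA0 : 0 < A := Real.exp_pos _
  have hB0 : 0 ≤ B := mul_nonneg hη (Real.exp_pos _).le
  set E := A + B + 1 with hE
  have hE0 : 0 < E := by positivity
  have hS0 : 0 < S := Sc_pos hη
  have hSE : S = Real.exp (r * t) + E := rfl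
  have hES : E / S ≤ τ := (tail_small hη hη1 ht ha hb).trans hτ
  have hES0 : 0 ≤ E / S := by positivity
  have hEτ : E ≤ τ * S := by rwa [div_le_iff₀ hS0] at hES
  -- `u` and `v`
  set u := r * E - (a * A + b * B) with hu
  set v := r ^ 2 * E - (a ^ 2 * A + b ^ 2 * B) with hv
  have har : (a : ℝ) ≤ r := by linarith
  have hbr : (b : ℝ) ≤ r := by linarith
  have hu0 : 0 ≤ u := by
    rw [hu, hE]
    have h1 : (a : ℝ) * A ≤ r * A := mul_le_mul_of_nonneg_right har hA0.le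
    have h2 : (b : ℝ) * B ≤ r * B := mul_le_mul_of_nonneg_right hbr hB0
    nlinarith
  have huE : u ≤ r * E := by
    have h1 : 0 ≤ (a : ℝ) * A := by positivity
    have h2 : 0 ≤ (b : ℝ) * B := by positivity
    rw [hu]; linarith
  have hv0 : 0 ≤ v := by
    rw [hv, hE]
    have h1 : (a : ℝ) ^ 2 * A ≤ r ^ 2 * A :=
      mul_le_mul_of_nonneg_right (pow_le_pow_left₀ ha0 har 2) hA0.le
    have h2 : (b : ℝ) ^ 2 * B ≤ r ^ 2 * B :=
      mul_le_mul_of_nonneg_right (pow_le_pow_left₀ hb0 hbr 2) hB0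
    nlinarith
  have hvE : v ≤ r ^ 2 * E := by
    have h1 : 0 ≤ (a : ℝ) ^ 2 * A := by positivity
    have h2 : 0 ≤ (b : ℝ) ^ 2 * B := by positivity
    rw [hv]; linarith
  have hS1 : Sc1 r a b η t = r * S - u := by
    rw [hu, hSE, hE, hA, hB]; unfold Sc1; ring
  have hS2 : Sc2 r a b η t = r ^ 2 * S - v := by
    rw [hv, hSE, hE, hA, hB]; unfold Sc2; ring
  have huS : u / S ≤ r * τ := by
    rw [div_le_iff₀ hS0]
    calc u ≤ r * E := huE
      _ ≤ r * (τ * S) := by gcongr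
      _ = _ := by ring
  have hvS : v / S ≤ r ^ 2 * τ := by
    rw [div_le_iff₀ hS0]
    calc v ≤ r ^ 2 * E := hvE
      _ ≤ r ^ 2 * (τ * S) := by gcongr
      _ = _ := by ring
  have huS0 : 0 ≤ u / S := by positivity
  have hvS0 : 0 ≤ v / S := by positivity
  have hrr : (r : ℝ) ≤ r ^ 2 := by nlinarith
  have hrτ : (r : ℝ) * τ ≤ r ^ 2 * τ := mul_le_mul_of_nonneg_right hrr hτ0.le
  refine ⟨⟨?_, ?_⟩, ?_, ?_⟩
  · unfold yc
    rw [Real.le_log_iff_exp_le hS0, hSE]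
    linarith
  · unfold yc
    rw [Real.log_le_iff_le_exp hS0]
    have h1 : S ≤ 2 * Real.exp (r * t) := by
      have h2 : E ≤ S / 2 := by nlinarith
      rw [hSE] at h2 ⊢
      linarith
    have h2 : (2 : ℝ) ≤ Real.exp 1 := by
      have := Real.exp_one_gt_d9
      linarith
    calc S ≤ 2 * Real.exp (r * t) := h1
      _ ≤ Real.exp 1 * Real.exp (r * t) := mul_le_mul_of_nonneg_right h2 (Real.exp_pos _).le
      _ = Real.exp (r * t + 1) := by rw [← Real.exp_add]; congr 1; ring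
  · have e : yc1 r a b η t - r = -(u / S) := by
      unfold yc1
      rw [hS1, ← hS]
      field_simp
      ring
    rw [e, abs_neg, abs_of_nonneg huS0]
    linarith
  · have e : yc2 r a b η t = -(v / S) + 2 * r * (u / S) - (u / S) ^ 2 := by
      unfold yc2
      rw [hS1, hS2, ← hS]
      field_simp
      ring
    rw [e]
    have h1 : 2 * r * (u / S) ≤ 2 * (r ^ 2 * τ) := by
      calc 2 * (r : ℝ) * (u / S) ≤ 2 * r * (r * τ) := by gcongr
        _ = _ := by ring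
    have h2 : (u / S) ^ 2 ≤ 1 := by
      have : u / S ≤ 1 := by linarith
      exact pow_le_one₀ huS0 this
    have h2' : 0 ≤ (u / S) ^ 2 := by positivity
    have h2'' : (u / S) ^ 2 ≤ u / S := by
      have : u / S ≤ 1 := by linarith
      nlinarith
    have h3 : 0 ≤ 2 * (r : ℝ) * (u / S) := by positivity
    rw [abs_le]
    constructor <;> linarith

end

/-- the curves satisfy the hypotheses of the sieve -/
theorem cur {a0 : ℝ} (ha0 : 0 < a0) (a1 : ℝ) : ∃ P : ℕ, ∀ r ≥ P, ∀ a b : ℕ, 6 * a ≤ 5 * r → 6 * b ≤ 5 * r →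
    ∀ η : ℝ, 0 ≤ η → η ≤ 1 →
    Cur a0 a1 1 (fun _ => 0) r (yc r a b η) (yc1 r a b η) (yc2 r a b η) ∧
    ∀ t ∈ Icc a0 a1, r * t ≤ yc r a b η t ∧ yc r a b η t ≤ r * t + 1 := by
  have h1 : Tendsto (fun x : ℝ => 4 * x ^ 2 * (3 * Real.exp (-(x * a0 / 6)))) atTop (𝓝 0) := by
    have h2 := (Real.tendsto_pow_mul_exp_neg_atTop_nhds_zero 2).comp
      ((tendsto_id (α := ℝ)).atTop_mul_const (show 0 < a0 / 6 by positivity))
    have h3 := h2.const_mul (12 / (a0 / 6) ^ 2)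
    rw [mul_zero] at h3
    refine h3.congr fun x => ?_
    simp only [Function.comp, id]
    have e : -(x * (a0 / 6)) = -(x * a0 / 6) := by ring
    rw [e]
    field_simp
    ring
  have h2 := (h1.comp (tendsto_natCast_atTop_atTop (R := ℝ))).eventually_le_const
    (show (0 : ℝ) < 1 / 8 by norm_num)
  obtain ⟨P, hP⟩ := eventually_atTop.1 (h2.and (eventually_ge_atTop 1))
  refine ⟨P, fun r hr a b ha hb η hη hη1 => ?_⟩
  obtain ⟨h3, h4⟩ := hP r hr
  simp only [Function.comp] at h3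
  have hest : ∀ t ∈ Icc a0 a1, (r * t ≤ yc r a b η t ∧ yc r a b η t ≤ r * t + 1) ∧
      |yc1 r a b η t - r| ≤ 1 / 8 ∧ |yc2 r a b η t| ≤ 1 := by
    intro t ht
    refine yc_est hη hη1 (ha0.le.trans ht.1) ha hb (τ := 3 * Real.exp (-(r * a0 / 6))) ?_ h4 h3
    have h5 : (r : ℝ) * a0 ≤ r * t := mul_le_mul_of_nonneg_left ht.1 (Nat.cast_nonneg r)
    have h6 : Real.exp (-(r * t / 6)) ≤ Real.exp (-(r * a0 / 6)) := Real.exp_le_exp.2 (by linarith)
    linarith
  refine ⟨⟨⟨fun t ht => ?_, fun t _ => yc_deriv hη, fun t ht => ?_⟩, fun t _ => yc1_deriv hη,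
    (yc2_cont hη).continuousOn, fun t ht => ?_, fun t ht => (hest t ht).2.2⟩, fun t ht => (hest t ht).1⟩
  · obtain ⟨⟨h5, h6⟩, -, -⟩ := hest t ht
    rw [abs_le]
    constructor <;> linarith
  · exact (hest t ht).2.1.trans (by norm_num)
  · simp only [sub_zero]
    exact (hest t ht).2.1

end Pool.Agent.X37.RB
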