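import Mathlib
import Pool.Agent.H447R2.ML.P8

set_option autoImplicit false

/-!
# Positive upper density from uniform lower bounds for the measure
-/

namespace Pool.Agent.X37.RB

open MeasureTheory Set Filter Topology

open Classical in
/-- the number of `k < K` with `x ∈ E k` -/
noncomputable def cnt (E : ℕ → Set ℝ) (K : ℕ) (x : ℝ) : ℕ := ((Finset.range K).filter fun k => x ∈ E k).card

lemma cnt_eq (E : ℕ → Set ℝ) (K : ℕ) (x : ℝ) :
    (cnt E K x : ℝ) = ∑ k ∈ Finset.range K, (E k).indicator (fun _ => (1 : ℝ)) x := by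
  classical
  unfold cnt
  rw [Finset.card_filter]
  push_cast
  refine Finset.sum_congr rfl fun k _ => ?_
  by_cases h : x ∈ E k
  · rw [if_pos h, indicator_of_mem h]
  · rw [if_neg h, indicator_of_notMem h]

lemma cnt_le (E : ℕ → Set ℝ) (K : ℕ) (x : ℝ) : cnt E K x ≤ K := by
  classical
  unfold cnt
  exact (Finset.card_filter_le _ _).trans (Finset.card_range K).le

/-- positive upper density, one threshold -/
lemma null_thr {E : ℕ → Set ℝ} (hE : ∀ k, MeasurableSet (E k)) {b0 b1 c : ℝ} (hc : 0 < c)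
    (h : ∀ s t : ℝ, b0 < s → s < t → t < b1 → ∃ k0 : ℕ, ∀ k ≥ k0,
      c * (t - s) ≤ volume.real (E k ∩ Ioc s t)) (N : ℕ) :
    volume {x : ℝ | x ∈ Ioo b0 b1 ∧ ∀ K ≥ N, (cnt E K x : ℝ) < c / 2 * K} = 0 := by
  have hmeas : ∀ K, Measurable fun x => (cnt E K x : ℝ) := fun K => by
    simp only [cnt_eq]
    exact Finset.measurable_sum _ fun k _ => measurable_const.indicator (hE k)
  set B : Set ℝ := {x : ℝ | x ∈ Ioo b0 b1 ∧ ∀ K ≥ N, (cnt E K x : ℝ) < c / 2 * K} with hB
  have hBm : MeasurableSet B := by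
    have e : B = Ioo b0 b1 ∩ ⋂ K ≥ N, {x : ℝ | (cnt E K x : ℝ) < c / 2 * K} := by
      ext x
      simp only [hB, Set.mem_ofPred_eq, Set.mem_inter_iff, Set.mem_iInter]
    rw [e]
    refine measurableSet_Ioo.inter ?_
    exact MeasurableSet.iInter fun K => MeasurableSet.iInter fun _ =>
      measurableSet_lt (hmeas K) measurable_const
  refine Pool.Agent.H447R2.ML.null_of_density hBm (κ := c / 4) (by positivity)
    (fun x hx => hx.1) fun s t hs hst ht => ?_
  obtain ⟨k0, hk0⟩ := h s t hs hst ht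
  have hts : 0 < t - s := by linarith
  set K := N + 4 * k0 + 1 with hK
  have hK0 : (0 : ℝ) < K := by rw [hK]; positivity
  have hKk : 4 * (k0 : ℝ) ≤ K := by rw [hK]; push_cast; linarith [Nat.cast_nonneg (α := ℝ) N]
  have hind : ∀ S : Set ℝ, MeasurableSet S → IntegrableOn (S.indicator fun _ => (1 : ℝ)) (Ioc s t) := by
    intro S hS
    refine Measure.integrableOn_of_bounded (M := 1) (by simp)
      ((measurable_const.indicator hS).aestronglyMeasurable) (Eventually.of_forall fun x => ?_)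
    by_cases hx : x ∈ S
    · rw [indicator_of_mem hx]; simp
    · rw [indicator_of_notMem hx]; simp
  have hEI : ∀ S : Set ℝ, MeasurableSet S →
      ∫ x in Ioc s t, S.indicator (fun _ => (1 : ℝ)) x = volume.real (S ∩ Ioc s t) := by
    intro S hS
    rw [integral_indicator hS, Measure.restrict_restrict hS, setIntegral_const, smul_eq_mul, mul_one]
  have hpt : ∀ x, ∑ k ∈ Finset.range K, (E k).indicator (fun _ => (1 : ℝ)) x ≤
      K - (1 - c / 2) * K * B.indicator (fun _ => (1 : ℝ)) x := by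
    intro x
    rw [← cnt_eq]
    by_cases hx : x ∈ B
    · rw [indicator_of_mem hx]
      have := hx.2 K (by omega)
      linarith
    · rw [indicator_of_notMem hx, mul_zero, sub_zero]
      exact_mod_cast cnt_le E K x
  have hc1 : IntegrableOn (fun _ : ℝ => (K : ℝ)) (Ioc s t) := integrableOn_const (by simp)
  have hc2 : IntegrableOn (fun x : ℝ => (1 - c / 2) * K * B.indicator (fun _ => (1 : ℝ)) x) (Ioc s t) :=
    (hind B hBm).const_mul _
  have hc3 : IntegrableOn (fun x : ℝ => (K : ℝ) - (1 - c / 2) * K * B.indicator (fun _ => (1 : ℝ)) x)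
      (Ioc s t) := hc1.sub hc2
  have hint : ∑ k ∈ Finset.range K, volume.real (E k ∩ Ioc s t) ≤
      K * (t - s) - (1 - c / 2) * K * volume.real (B ∩ Ioc s t) := by
    have h1 : ∑ k ∈ Finset.range K, volume.real (E k ∩ Ioc s t) =
        ∫ x in Ioc s t, ∑ k ∈ Finset.range K, (E k).indicator (fun _ => (1 : ℝ)) x := by
      rw [integral_finsetSum _ fun k _ => hind _ (hE k)]
      exact Finset.sum_congr rfl fun k _ => (hEI _ (hE k)).symm
    have h2 : ∫ x in Ioc s t, ((K : ℝ) - (1 - c / 2) * K * B.indicator (fun _ => (1 : ℝ)) x) =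
        K * (t - s) - (1 - c / 2) * K * volume.real (B ∩ Ioc s t) := by
      rw [integral_sub hc1 hc2, integral_const_mul, hEI B hBm, setIntegral_const, Real.volume_real_Ioc_of_le hst.le, smul_eq_mul]
      ring
    rw [h1, ← h2]
    exact setIntegral_mono_on (integrable_finsetSum _ fun k _ => hind _ (hE k)) hc3 measurableSet_Ioc
      fun x _ => hpt x
  have hlow : ((K : ℝ) - k0) * (c * (t - s)) ≤ ∑ k ∈ Finset.range K, volume.real (E k ∩ Ioc s t) := by
    have hk0K : k0 ≤ K := by omega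
    calc ((K : ℝ) - k0) * (c * (t - s)) = ∑ k ∈ Finset.Ico k0 K, c * (t - s) := by
          rw [Finset.sum_const, Nat.card_Ico, nsmul_eq_mul, Nat.cast_sub hk0K]
      _ ≤ ∑ k ∈ Finset.Ico k0 K, volume.real (E k ∩ Ioc s t) :=
          Finset.sum_le_sum fun k hk => hk0 k (Finset.mem_Ico.1 hk).1
      _ ≤ _ := by
          refine Finset.sum_le_sum_of_subset_of_nonneg (fun k hk => ?_) fun k _ _ => measureReal_nonneg
          exact Finset.mem_range.2 (Finset.mem_Ico.1 hk).2
  have hBle : volume.real (B ∩ Ioc s t) ≤ t - s := by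
    have := measureReal_mono (μ := volume) (Set.inter_subset_right (s := B) (t := Ioc s t)) (by simp)
    rwa [Real.volume_real_Ioc_of_le hst.le] at this
  set v := volume.real (B ∩ Ioc s t) with hv
  have h3 : K * v ≤ K * ((1 - c / 4) * (t - s)) := by
    have h4 : c / 2 * K * v ≤ c / 2 * K * (t - s) := mul_le_mul_of_nonneg_left hBle (by positivity)
    have h5 : (k0 : ℝ) * (c * (t - s)) ≤ K / 4 * (c * (t - s)) :=
      mul_le_mul_of_nonneg_right (by linarith) (by positivity)
    nlinarith [hint, hlow]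
  exact le_of_mul_le_mul_left h3 hK0

/-- **Positive upper density.** -/
theorem upper_density {E : ℕ → Set ℝ} (hE : ∀ k, MeasurableSet (E k)) {b0 b1 c : ℝ} (hc : 0 < c)
    (h : ∀ s t : ℝ, b0 < s → s < t → t < b1 → ∃ k0 : ℕ, ∀ k ≥ k0,
      c * (t - s) ≤ volume.real (E k ∩ Ioc s t)) :
    ∀ᵐ x : ℝ, x ∈ Ioo b0 b1 → ∃ᶠ K : ℕ in atTop, c / 2 * K ≤ cnt E K x := by
  rw [ae_iff]
  refine measure_mono_null (t := ⋃ N : ℕ,
    {x : ℝ | x ∈ Ioo b0 b1 ∧ ∀ K ≥ N, (cnt E K x : ℝ) < c / 2 * K}) (fun x hx => ?_)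
    (measure_iUnion_null fun N => null_thr hE hc h N)
  simp only [Set.mem_ofPred_eq, Classical.not_imp] at hx
  obtain ⟨hx1, hx2⟩ := hx
  rw [Filter.not_frequently, eventually_atTop] at hx2
  obtain ⟨N, hN⟩ := hx2
  rw [Set.mem_iUnion]
  exact ⟨N, hx1, fun K hK => not_le.1 (hN K hK)⟩

end Pool.Agent.X37.RB
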