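import Mathlib
import Pool.Agent.X37.NP.Ls
import Pool.Agent.W66.CD
import Pool.Agent.W66.GC
import Pool.Agent.X10.AI.Near

set_option autoImplicit false

/-!
# Two simultaneous prime values in a unit window, general convex relation
-/

namespace Pool.Agent.X37.RB

open MeasureTheory Set Filter Topology
open Pool.Agent.W66 (NN_bounds)
open Pool.Agent.W66V (Conv BC BC_nonneg corr_conv joint_sift_log size_exp)
open Pool.Agent.H305R2 (roughPart NN ff measurable_NN measurable_ff ff_nonneg ff_le_one)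
open Pool.Agent.X10.AI (ff_one)
open Pool.Agent.X37.NP (exp_ge_two)

/-- the error term of the sieve -/
lemma err_rb {c Y : ℝ} (hc : 0 < c) (hc1 : c ≤ 1) (hY : 1 ≤ Y) {R : ℕ} (hR1 : 1 ≤ R)
    (hR : (R : ℝ) ≤ Real.exp (Y / 64)) :
    (R : ℝ) ^ 8 * (12 * BC (R ^ 2) (c / (Y * Real.exp Y)) (Real.exp Y)) ≤
      1560 * (8 / c + 1) * (1 / Y) ^ 2 := by
  have hY0 : 0 < Y := by linarith
  have hR0 : (0 : ℝ) < R := by exact_mod_cast hR1
  have hR1' : (1 : ℝ) ≤ R := by exact_mod_cast hR1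
  set E := Real.exp (Y / 2) with hE
  have hE0 : 0 < E := Real.exp_pos _
  have hEE : Real.exp Y = E ^ 2 := by
    rw [hE, ← Real.exp_nat_mul]; congr 1; push_cast; ring
  have hsq : c / (Y * R * E) ≤ Real.sqrt (c / (Y * Real.exp Y) / ((R ^ 2 : ℕ) : ℝ)) := by
    refine Real.le_sqrt_of_sq_le ?_
    rw [hEE]
    push_cast
    rw [div_pow, div_div, div_le_div_iff₀ (by positivity) (by positivity)]
    have h1 : c ^ 2 ≤ c := by nlinarith
    have h2 : Y ≤ Y ^ 2 := by nlinarith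
    calc c ^ 2 * (Y * E ^ 2 * (R : ℝ) ^ 2) ≤ c * (Y ^ 2 * E ^ 2 * (R : ℝ) ^ 2) := by gcongr
      _ = c * (Y * R * E) ^ 2 := by ring
  have hBC : BC (R ^ 2) (c / (Y * Real.exp Y)) (Real.exp Y) ≤
      8 / c * Y * R * Real.exp (-(Y / 2)) + (R : ℝ) ^ 2 * Real.exp (-Y) := by
    unfold BC
    have e1 : Real.exp (-(Y / 2)) = 1 / E := by rw [Real.exp_neg, hE, one_div]
    have e2 : Real.exp (-Y) = 1 / E ^ 2 := by rw [Real.exp_neg, hEE, one_div]
    have h1 : 8 / Real.sqrt (c / (Y * Real.exp Y) / ((R ^ 2 : ℕ) : ℝ)) ≤ 8 / (c / (Y * R * E)) :=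
      div_le_div_of_nonneg_left (by norm_num) (by positivity) hsq
    have h2 : 8 / (c / (Y * R * E)) / Real.exp Y = 8 / c * Y * R * (1 / E) := by
      rw [hEE]; field_simp
    have h3 : ((R ^ 2 : ℕ) : ℝ) / Real.exp Y = (R : ℝ) ^ 2 * (1 / E ^ 2) := by
      rw [hEE]; push_cast; field_simp
    rw [e1, e2, h3]
    have h4 := div_le_div_of_nonneg_right h1 (Real.exp_pos Y).le
    rw [h2] at h4
    linarith
  have hR9 : (R : ℝ) ^ 9 ≤ Real.exp (9 * (Y / 64)) := by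
    calc (R : ℝ) ^ 9 ≤ (Real.exp (Y / 64)) ^ 9 := pow_le_pow_left₀ hR0.le hR 9
      _ = _ := by rw [← Real.exp_nat_mul]; push_cast; rfl
  have hR10 : (R : ℝ) ^ 10 ≤ Real.exp (10 * (Y / 64)) := by
    calc (R : ℝ) ^ 10 ≤ (Real.exp (Y / 64)) ^ 10 := pow_le_pow_left₀ hR0.le hR 10
      _ = _ := by rw [← Real.exp_nat_mul]; push_cast; rfl
  set z := 23 * Y / 64 with hz
  have hz0 : 0 ≤ z := by positivity
  have hfin : Y * Real.exp (-z) ≤ 130 * (1 / Y) ^ 2 := by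
    have h1 := Real.pow_div_factorial_le_exp z hz0 3
    have h2 : (Nat.factorial 3 : ℝ) = 6 := by norm_num [Nat.factorial]
    rw [h2] at h1
    have h3 : Y ^ 3 ≤ 130 * Real.exp z := by
      have e : z ^ 3 / 6 = 12167 / 1572864 * Y ^ 3 := by rw [hz]; ring
      rw [e] at h1
      have : 0 < Y ^ 3 := by positivity
      nlinarith
    rw [Real.exp_neg, one_div, inv_pow]
    have h5 : 0 < Real.exp z := Real.exp_pos z
    rw [← div_eq_mul_inv, ← div_eq_mul_inv, div_le_div_iff₀ h5 (by positivity)]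
    calc Y * Y ^ 2 = Y ^ 3 := by ring
      _ ≤ _ := h3
  have hc8 : 0 < 8 / c := by positivity
  calc (R : ℝ) ^ 8 * (12 * BC (R ^ 2) (c / (Y * Real.exp Y)) (Real.exp Y)) ≤
      (R : ℝ) ^ 8 * (12 * (8 / c * Y * R * Real.exp (-(Y / 2)) + (R : ℝ) ^ 2 * Real.exp (-Y))) := by
        gcongr
    _ = 12 * (8 / c * Y * ((R : ℝ) ^ 9 * Real.exp (-(Y / 2))) + (R : ℝ) ^ 10 * Real.exp (-Y)) := by ring
    _ ≤ 12 * (8 / c * Y * (Real.exp (9 * (Y / 64)) * Real.exp (-(Y / 2))) +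
        Real.exp (10 * (Y / 64)) * Real.exp (-Y)) := by gcongr
    _ ≤ 12 * (8 / c * Y * Real.exp (-z) + Y * Real.exp (-z)) := by
        have e1 : Real.exp (9 * (Y / 64)) * Real.exp (-(Y / 2)) = Real.exp (-z) := by
          rw [← Real.exp_add, hz]; congr 1; ring
        have e2 : Real.exp (10 * (Y / 64)) * Real.exp (-Y) ≤ Y * Real.exp (-z) := by
          rw [← Real.exp_add]
          have h1 : Real.exp (10 * (Y / 64) + -Y) ≤ Real.exp (-z) :=
            Real.exp_le_exp.2 (by rw [hz]; linarith)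
          have h2 := Real.exp_pos (-z)
          nlinarith
        rw [e1]
        linarith
    _ = 12 * (8 / c + 1) * (Y * Real.exp (-z)) := by ring
    _ ≤ 12 * (8 / c + 1) * (130 * (1 / Y) ^ 2) := mul_le_mul_of_nonneg_left hfin (by positivity)
    _ = _ := by ring

/-- **Two prime values in a unit window.** -/
theorem win_gen {c : ℝ} (hc : 0 < c) (hc1 : c ≤ 1) {Y : ℝ} (hY : 4 ≤ Y) {ψ ψ' ψ'' w : ℝ → ℝ}
    (hw : Measurable w) (hwY : ∀ u ∈ Ioc Y (Y + 1), Y - 1 ≤ w u) (hψ : ∀ u, ψ (Real.exp u) = Real.exp (w u))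
    {ρ : ℝ} (hρ : c / (Y * Real.exp Y) ≤ ρ) (hcv : Conv ψ ψ' ψ'' (Real.exp Y) ρ) :
    ∫ u in Ioc Y (Y + 1), ff 1 u * ff 1 (w u) ≤ (65536 + 1560 * (8 / c + 1)) * (1 / Y) ^ 2 := by
  have hY0 : 0 < Y := by linarith
  set R := ⌊Real.exp (Y / 64)⌋₊ with hR
  have hexp1 : 1 ≤ Real.exp (Y / 64) := Real.one_le_exp (by positivity)
  have hR1 : 1 ≤ R := by rw [hR, Nat.one_le_floor_iff]; exact hexp1
  have hRle : (R : ℝ) ≤ Real.exp (Y / 64) := Nat.floor_le (Real.exp_pos _).le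
  have hRgt : Real.exp (Y / 64) ≤ R + 1 := (Nat.lt_floor_add_one _).le
  have hX2 : 2 ≤ Real.exp Y := exp_ge_two (by linarith)
  set ρ0 := c / (Y * Real.exp Y) with hρ0d
  have hρ0 : 0 < ρ0 := by positivity
  set ε := 12 * BC (R ^ 2) ρ0 (Real.exp Y) with hε
  have hε0 : 0 ≤ ε := mul_nonneg (by norm_num) (BC_nonneg (by linarith))
  have hcv' : Conv ψ ψ' ψ'' (Real.exp Y) ρ0 :=
    ⟨hcv.d1, hcv.d2, hcv.cont, fun x hx => hρ.trans (hcv.pos x hx)⟩
  have hsize : Real.exp (Y / 64) ≤ 3 / 4 * Real.exp (Y - 1) - 1 :=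
    size_exp (by positivity) (by linarith)
  have hno : ∀ v : ℝ, Y - 1 ≤ v → (NN v).Prime → ∀ l : ℕ, l.Prime → l ≤ R → ¬ l ∣ NN v := by
    intro v hv hp l hl hlR hd
    have h1 := (Nat.prime_dvd_prime_iff_eq hl hp).1 hd
    have h2 := (NN_bounds v).2
    have h3 := Real.exp_le_exp.2 hv
    have h4 : ((NN v : ℕ) : ℝ) ≤ R := by rw [← h1]; exact_mod_cast hlR
    have h5 := Real.exp_pos (Y - 1)
    linarith
  obtain ⟨J, hJ0, hJ1, hJ2⟩ := joint_sift_log (R := R) (M := 1) hR1 one_ne_zero (ε := ε) (Y := Y) hε0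
    (ψ := ψ) hcv'.contOn
    (fun D' E hD' hD2 hE hE2 => corr_conv (Q := R ^ 2) hcv' (by linarith) hρ0 (Nat.one_le_pow _ _ hR1)
      hD' hD2 hE hE2)
    (f := fun u => ff 1 u * ff 1 (w u))
    (by
      refine Measure.integrableOn_of_bounded (M := 1) (by simp)
        (((measurable_ff 1).mul ((measurable_ff 1).comp hw)).aestronglyMeasurable)
        (Eventually.of_forall fun y => ?_)
      rw [Real.norm_eq_abs, abs_of_nonneg (mul_nonneg (ff_nonneg _ _) (ff_nonneg _ _))]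
      exact mul_le_one₀ (ff_le_one _ _) (ff_nonneg _ _) (ff_le_one _ _))
    (fun y _ => mul_le_one₀ (ff_le_one _ _) (ff_nonneg _ _) (ff_le_one _ _))
    (by
      intro u hu hfu
      obtain ⟨n1, n2⟩ := NN_bounds u
      obtain ⟨n3, n4⟩ := NN_bounds (w u)
      rw [← hψ] at n3 n4
      have hp1 : (NN u).Prime := by
        by_contra hc
        simp only [ff_one, if_neg hc, zero_mul] at hfu
        exact lt_irrefl _ hfu
      have hp2 : (NN (w u)).Prime := by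
        by_contra hc
        simp only [ff_one, if_neg hc, mul_zero] at hfu
        exact lt_irrefl _ hfu
      exact ⟨NN u, NN (w u), n1, n2, n3, n4, fun l hl hlR _ =>
        ⟨hno _ (by linarith [hu.1]) hp1 l hl hlR, hno _ (hwY u hu) hp2 l hl hlR⟩⟩)
  refine hJ2.trans ?_
  have he := err_rb (c := c) (Y := Y) hc hc1 (by linarith) hR1 hRle
  rw [← hρ0d, ← hε] at he
  have hJ : Y / 128 ≤ J := by
    have h1 : Y / 64 ≤ Real.log (R + 1) := by
      rw [Real.le_log_iff_exp_le (by positivity)]; exact hRgt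
    simp only [Nat.cast_one, Nat.totient_one, div_one, mul_one] at hJ1
    linarith
  have h2 : 4 / J ^ 2 ≤ 65536 * (1 / Y) ^ 2 := by
    have h3 : (Y / 128) ^ 2 ≤ J ^ 2 := pow_le_pow_left₀ (by positivity) hJ 2
    calc 4 / J ^ 2 ≤ 4 / (Y / 128) ^ 2 := div_le_div_of_nonneg_left (by norm_num) (by positivity) h3
      _ = _ := by field_simp; norm_num
  linarith

end Pool.Agent.X37.RB
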