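import Mathlib
import Pool.Agent.X37.RB.Win
import Pool.Agent.W66.CE
import Pool.Agent.W66.CA
import Pool.Agent.X10.AI.One

set_option autoImplicit false

/-!
# One curve and two curves on an interval
-/

namespace Pool.Agent.X37.RB

open MeasureTheory Set Filter Topology
open Pool.Agent.H447R2.ML (Loc)
open Pool.Agent.W66C (Cur psi_exists cover_nonneg sum_windows)
open Pool.Agent.W66V (Conv)
open Pool.Agent.H305R2 (roughPart NN ff measurable_NN measurable_ff ff_nonneg ff_le_one LL integrableOn_ff)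
open Pool.Agent.X10.AI (ff_one bounds1 LL1_rate)

/-- the hypotheses on one curve -/
structure Cv (a0 a1 : ℝ) (r : ℕ) (y y' y'' : ℝ → ℝ) : Prop where
  cur : Cur a0 a1 1 (fun _ => 0) r y y' y''
  rng : ∀ t ∈ Icc a0 a1, r * t ≤ y t ∧ y t ≤ r * t + 1

/-- upper bound for one curve -/
theorem one_upper {a0 a1 : ℝ} (ha0 : 0 < a0) : ∃ K : ℝ, 0 < K ∧ ∃ P : ℕ, ∀ r ≥ P,
    ∀ y y' y'' : ℝ → ℝ, Cv a0 a1 r y y' y'' → ∀ s t : ℝ, a0 ≤ s → s ≤ t → t ≤ a1 →
    ∫ x in Ioc s t, ff 1 (y x) ≤ K * ((t - s) + 1 / r) * (1 / r) := by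
  obtain ⟨K, hK, hb⟩ := bounds1
  obtain ⟨P, hP⟩ := eventually_atTop.1
    ((tendsto_natCast_atTop_atTop (R := ℝ)).eventually_gt_atTop (9 / a0 + 4))
  refine ⟨2 * K / a0, by positivity, P, fun r hr y y' y'' hc s t hs hst ht => ?_⟩
  have hr1 := hP r hr
  have h9 : 0 < 9 / a0 := by positivity
  have hr4 : (4 : ℝ) < r := by linarith
  have hr0 : (0 : ℝ) < r := by linarith
  have hra : 9 ≤ r * a0 := by
    have : 9 / a0 ≤ r := by linarith
    rwa [div_le_iff₀ ha0] at this
  have hL := hc.cur.loc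
  have hmvt := hL.mvt (by linarith) zero_le_one hs hst ht
  have hys : r * a0 ≤ y s := le_trans (mul_le_mul_of_nonneg_left hs hr0.le) (hc.rng s ⟨hs, hst.trans ht⟩).1
  have hyst : y s ≤ y t := by
    have : 0 ≤ (r - 1 : ℝ) * (t - s) := mul_nonneg (by linarith) (by linarith)
    linarith [hmvt.1]
  have h1 := (hL.cov (by linarith) zero_le_one hs hst ht (measurable_ff 1) (ff_nonneg 1) (ff_le_one 1)).1
  have h2 := cover_nonneg (F := ff 1) (measurable_ff 1) (ff_nonneg 1) (ff_le_one 1) hyst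
    (B := K * (1 / (r * a0))) (by positivity) (fun Y hY _ => by
      have h3 : r * a0 ≤ Y := hys.trans hY
      refine ((hb Y (by linarith)).1).trans ?_
      have : 1 / Y ≤ 1 / (r * a0) := one_div_le_one_div_of_le (by positivity) h3
      exact mul_le_mul_of_nonneg_left this hK.le)
  have h4 : (y t - y s) + 1 ≤ (r - 1) * (2 * ((t - s) + 1 / r)) := by
    have h5 : (r + 1) * (t - s) ≤ (r - 1) * (2 * (t - s)) := by
      have : 0 ≤ t - s := by linarith
      nlinarith
    have h6 : 1 ≤ (r - 1) * (2 * (1 / (r : ℝ))) := by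
      have e : (r - 1) * (2 * (1 / (r : ℝ))) = 2 - 2 * (1 / (r : ℝ)) := by field_simp
      have h7 : 1 / (r : ℝ) ≤ 1 / 2 := one_div_le_one_div_of_le (by norm_num) (by linarith)
      rw [e]; linarith
    linarith [hmvt.2]
  have h8 : (r - 1) * ∫ x in Ioc s t, ff 1 (y x) ≤
      (r - 1) * (2 * K / a0 * ((t - s) + 1 / r) * (1 / r)) := by
    refine h1.trans (h2.trans ?_)
    calc (y t - y s + 1) * (K * (1 / (r * a0))) ≤
          ((r - 1) * (2 * ((t - s) + 1 / r))) * (K * (1 / (r * a0))) := by gcongr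
      _ = _ := by field_simp
  exact le_of_mul_le_mul_left h8 (by linarith)

/-- lower bound for one curve -/
theorem one_lower {a0 a1 : ℝ} (ha0 : 0 < a0) (ha1 : 0 < a1) : ∃ P : ℕ, ∀ r ≥ P,
    ∀ y y' y'' : ℝ → ℝ, Cv a0 a1 r y y' y'' → ∀ s t : ℝ, a0 ≤ s → s ≤ t → t ≤ a1 →
    2 ≤ r * (t - s) →
    (t - s) / (32 * a1) * (1 / r) ≤ ∫ x in Ioc s t, ff 1 (y x) := by
  obtain ⟨C, hC, hb⟩ := LL1_rate
  obtain ⟨P, hP⟩ := eventually_atTop.1
    ((tendsto_natCast_atTop_atTop (R := ℝ)).eventually_gt_atTop ((2 * C + 2) / a0 + 1 / a1 + 4))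
  refine ⟨P, fun r hr y y' y'' hc s t hs hst ht hrt => ?_⟩
  have hr1 := hP r hr
  have h9 : 0 < (2 * C + 2) / a0 := by positivity
  have h9' : 0 < 1 / a1 := by positivity
  have hr4 : (4 : ℝ) < r := by linarith
  have hr0 : (0 : ℝ) < r := by linarith
  have hra : 2 * C + 2 ≤ r * a0 := by
    have : (2 * C + 2) / a0 ≤ r := by linarith
    rwa [div_le_iff₀ ha0] at this
  have hra1 : 1 ≤ r * a1 := by
    have : 1 / a1 ≤ r := by linarith
    rwa [div_le_iff₀ ha1] at this
  have hL := hc.cur.loc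
  have hmvt := hL.mvt (by linarith) zero_le_one hs hst ht
  have hys : r * a0 ≤ y s := le_trans (mul_le_mul_of_nonneg_left hs hr0.le) (hc.rng s ⟨hs, hst.trans ht⟩).1
  have hyt : y t ≤ r * a1 + 1 := by
    have h3 := (hc.rng t ⟨hs.trans hst, ht⟩).2
    have h4 : (r : ℝ) * t ≤ r * a1 := mul_le_mul_of_nonneg_left ht hr0.le
    linarith
  have hgap : (3 / 4 : ℝ) * r * (t - s) ≤ y t - y s := by
    refine le_trans ?_ hmvt.1
    exact mul_le_mul_of_nonneg_right (by linarith) (by linarith)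
  have hgap1 : 3 / 2 ≤ y t - y s := by linarith
  set N := ⌊y t - y s⌋₊ with hN
  have hN1 : (N : ℝ) ≤ y t - y s := Nat.floor_le (by linarith)
  have hN2 : y t - y s < N + 1 := Nat.lt_floor_add_one _
  have hN3 : (y t - y s) / 3 ≤ N := by linarith
  have hii : ∀ a b, IntervalIntegrable (ff 1) volume a b := fun a b =>
    Pool.Agent.W66.ii_of_bdd (measurable_ff 1) (fun x => by
      rw [abs_of_nonneg (ff_nonneg 1 x)]; exact ff_le_one 1 x) a b
  have hlow : (N : ℝ) * (1 / (4 * (r * a1))) ≤ ∫ u in Ioc (y s) (y t), ff 1 u := by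
    calc (N : ℝ) * (1 / (4 * (r * a1))) = ∑ j ∈ Finset.range N, 1 / (4 * (r * a1)) := by
          rw [Finset.sum_const, Finset.card_range, nsmul_eq_mul]
      _ ≤ ∑ j ∈ Finset.range N, ∫ x in (y s + j)..(y s + j + 1), ff 1 x := by
          refine Finset.sum_le_sum fun j hj => ?_
          have hj' : (j : ℝ) + 1 ≤ N := by
            have := Finset.mem_range.1 hj
            exact_mod_cast this
          have hj0 : (0 : ℝ) ≤ j := Nat.cast_nonneg j
          set Y := y s + j with hY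
          have hY1 : 2 * C + 2 ≤ Y := by linarith
          have hY0 : 0 < Y := by linarith
          have hY2 : Y ≤ 2 * (r * a1) := by linarith
          rw [intervalIntegral.integral_of_le (by linarith)]
          have h5 := (abs_le.1 (hb Y (by linarith))).1
          have h6 : C / Y ^ 2 ≤ 1 / (2 * Y) := by
            rw [div_le_div_iff₀ (by positivity) (by positivity)]
            nlinarith
          have h7 : 1 / Y - 1 / (2 * Y) = 1 / (2 * Y) := by field_simp; norm_num
          have h8 : 1 / (4 * (r * a1)) ≤ 1 / (2 * Y) :=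
            one_div_le_one_div_of_le (by positivity) (by linarith)
          have e : LL 1 Y = ∫ x in Ioc Y (Y + 1), ff 1 x := rfl
          rw [← e]
          linarith
      _ = ∫ x in (y s)..(y s + N), ff 1 x := sum_windows hii (y s) N
      _ = ∫ x in Ioc (y s) (y s + N), ff 1 x := by
          rw [intervalIntegral.integral_of_le (by linarith [Nat.cast_nonneg (α := ℝ) N])]
      _ ≤ _ := by
          refine setIntegral_mono_set (integrableOn_ff 1 _ _)
            (Eventually.of_forall fun t => ff_nonneg 1 t)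
            (HasSubset.Subset.eventuallyLE (Set.Ioc_subset_Ioc_right (by linarith)))
  have h1 := (hL.cov (by linarith) zero_le_one hs hst ht (measurable_ff 1) (ff_nonneg 1) (ff_le_one 1)).2
  have h2 : 0 ≤ ∫ x in Ioc s t, ff 1 (y x) := integral_nonneg fun x => ff_nonneg 1 _
  have h3 : 2 * r * ((t - s) / (32 * a1) * (1 / r)) ≤ 2 * r * ∫ x in Ioc s t, ff 1 (y x) := by
    calc 2 * r * ((t - s) / (32 * a1) * (1 / r)) = (t - s) / (16 * a1) := by
            field_simp; try ring
      _ = (3 / 4 * r * (t - s)) / 3 * (1 / (4 * (r * a1))) := by field_simp; try ring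
      _ ≤ N * (1 / (4 * (r * a1))) := by
          refine mul_le_mul_of_nonneg_right ?_ (by positivity)
          linarith
      _ ≤ _ := hlow
      _ ≤ (r + 1) * ∫ x in Ioc s t, ff 1 (y x) := h1
      _ ≤ _ := mul_le_mul_of_nonneg_right (by linarith) h2
  exact le_of_mul_le_mul_left h3 (by positivity)

/-- upper bound for two curves -/
theorem two_upper {a0 a1 b0 b1 : ℝ} (ha0 : 0 < a0) (h0 : a0 < b0) (h1 : b1 < a1) :
    ∃ K : ℝ, 0 < K ∧ ∃ P : ℕ, ∀ r ≥ P, ∀ q : ℕ, r < q → q ≤ 2 * r →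
    ∀ y y' y'' z z' z'' : ℝ → ℝ, Cv a0 a1 r y y' y'' → Cv a0 a1 q z z' z'' →
    ∀ s t : ℝ, b0 ≤ s → s ≤ t → t ≤ b1 →
    ∫ x in Ioc s t, ff 1 (y x) * ff 1 (z x) ≤ K * ((t - s) + 1 / r) * (1 / (r : ℝ) ^ 2) := by
  set c : ℝ := min 1 (a0 * Real.exp (-3) / 8) with hcd
  have hc0 : 0 < c := lt_min one_pos (by positivity)
  have hc1 : c ≤ 1 := min_le_left _ _
  have hc2 : c ≤ a0 * Real.exp (-3) / 8 := min_le_right _ _
  set K := 65536 + 1560 * (8 / c + 1) with hK
  have hK0 : 0 < K := by positivity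
  obtain ⟨P, hP⟩ := eventually_atTop.1
    ((tendsto_natCast_atTop_atTop (R := ℝ)).eventually_gt_atTop (4 / a0 + 1 / (a1 - b1) + 60))
  refine ⟨2 * K / a0 ^ 2, by positivity, P, fun r hr q hrq hq2 y y' y'' z z' z'' hy hz s t hs hst ht => ?_⟩
  have hr1 := hP r hr
  have h9 : 0 < 4 / a0 := by positivity
  have hab : 0 < a1 - b1 := by linarith
  have h9' : 0 < 1 / (a1 - b1) := by positivity
  have hr60 : (60 : ℝ) < r := by linarith
  have hr0 : (0 : ℝ) < r := by linarith
  have hra : 4 ≤ r * a0 := by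
    have : 4 / a0 ≤ r := by linarith
    rwa [div_le_iff₀ ha0] at this
  have hrab : 1 < (r - 1) * (a1 - b1) := by
    have : 1 / (a1 - b1) < r - 1 := by linarith
    rwa [div_lt_iff₀ hab] at this
  have hrq' : (r : ℝ) + 1 ≤ q := by exact_mod_cast hrq
  have hs0 : a0 ≤ s := by linarith
  have ht1 : t ≤ a1 := by linarith
  have h01 : a0 < a1 := by linarith
  obtain ⟨ψ, ψ', ψ'', w, hwm, hwz, hψ, hconv⟩ := psi_exists (δ := 1 / 2) ha0 zero_le_one h01
    (by norm_num) (by norm_num) (by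
      rw [show (25 : ℝ) * (1 / (1 / 2)) + 1 = 51 by norm_num]; linarith) hrq.le hq2 hy.cur hz.cur (fun x hx => by
      have h2 := hy.cur.slope x hx
      have h3 := hz.cur.slope x hx
      simp only [sub_zero] at h2 h3
      rw [abs_le] at h2 h3
      linarith [h2.1, h2.2, h3.1, h3.2])
  have hL := hy.cur.loc
  have hmvt := hL.mvt (by linarith) zero_le_one hs0 hst ht1
  have hstr := hL.strict (by linarith) zero_le_one
  have hyst : y s ≤ y t := by
    have : 0 ≤ (r - 1 : ℝ) * (t - s) := mul_nonneg (by linarith) (by linarith)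
    linarith [hmvt.1]
  have hya : r * a0 ≤ y a0 := (hy.rng a0 ⟨le_rfl, h01.le⟩).1
  have hyas : y a0 < y s := hstr ⟨le_rfl, h01.le⟩ ⟨hs0, hst.trans ht1⟩ (by linarith)
  have hyta : y t + 1 < y a1 := by
    have h2 := (hL.mvt (by linarith) zero_le_one (hs0.trans hst) ht1 le_rfl).1
    have h3 : (r - 1 : ℝ) * (a1 - b1) ≤ (r - 1) * (a1 - t) :=
      mul_le_mul_of_nonneg_left (by linarith) (by linarith)
    linarith
  set F : ℝ → ℝ := fun u => ff 1 u * ff 1 (w u) with hF
  have hFm : Measurable F := (measurable_ff 1).mul ((measurable_ff 1).comp hwm.measurable)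
  have hF0 : ∀ u, 0 ≤ F u := fun u => mul_nonneg (ff_nonneg _ _) (ff_nonneg _ _)
  have hF1 : ∀ u, F u ≤ 1 := fun u => mul_le_one₀ (ff_le_one _ _) (ff_nonneg _ _) (ff_le_one _ _)
  have hcov := (hL.cov (by linarith) zero_le_one hs0 hst ht1 hFm hF0 hF1).1
  have hwin := cover_nonneg hFm hF0 hF1 hyst (B := K * (1 / (r * a0)) ^ 2) (by positivity)
    (fun Y hY0 hY1 => by
      have hYr : r * a0 ≤ Y := by linarith
      have hY4 : 4 ≤ Y := by linarith
      have hYpos : 0 < Y := by linarith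
      have hcv := hconv Y (by linarith) (by linarith)
      have hρ : c / (Y * Real.exp Y) ≤
          1 / 2 * Real.exp (-(2 * 1)) / (4 * (r * (Real.exp 1 * Real.exp Y))) := by
        have e3 : Real.exp (-3) = Real.exp (-(2 * 1)) * (Real.exp 1)⁻¹ := by
          rw [← Real.exp_neg, ← Real.exp_add]; norm_num
        have h5 : 1 / 2 * Real.exp (-(2 * 1)) / (4 * (r * (Real.exp 1 * Real.exp Y))) =
            (a0 * Real.exp (-3) / 8) / (r * a0 * Real.exp Y) := by
          rw [e3]; field_simp; norm_num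
        rw [h5]
        have h6 : c / (Y * Real.exp Y) ≤ c / (r * a0 * Real.exp Y) :=
          div_le_div_of_nonneg_left hc0.le (by positivity)
            (mul_le_mul_of_nonneg_right hYr (Real.exp_pos Y).le)
        refine h6.trans ?_
        exact div_le_div_of_nonneg_right hc2 (by positivity)
      have hres := win_gen hc0 hc1 hY4 hwm.measurable (fun u hu => by
        have huI : u ∈ Icc (y a0) (y a1) := ⟨by linarith [hu.1], by linarith [hu.2]⟩
        obtain ⟨x, hx, he⟩ := intermediate_value_Icc h01.le hL.cont huI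
        rw [← he, hwz x hx]
        have h6 := (hz.rng x hx).1
        have h7 := (hy.rng x hx).2
        have h8 : (r : ℝ) * x ≤ q * x := mul_le_mul_of_nonneg_right (by linarith)
          (ha0.le.trans hx.1)
        have h9 : Y < y x := by rw [he]; exact hu.1
        linarith) hψ hρ hcv
      refine hres.trans ?_
      have : 1 / Y ≤ 1 / (r * a0) := one_div_le_one_div_of_le (by positivity) hYr
      have h10 : (1 / Y) ^ 2 ≤ (1 / (r * a0)) ^ 2 := pow_le_pow_left₀ (by positivity) this 2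
      exact mul_le_mul_of_nonneg_left h10 hK0.le)
  have h4 : (y t - y s) + 1 ≤ (r - 1) * (2 * ((t - s) + 1 / r)) := by
    have h5 : (r + 1) * (t - s) ≤ (r - 1) * (2 * (t - s)) := by
      have : 0 ≤ t - s := by linarith
      nlinarith
    have h6 : 1 ≤ (r - 1) * (2 * (1 / (r : ℝ))) := by
      have e : (r - 1) * (2 * (1 / (r : ℝ))) = 2 - 2 * (1 / (r : ℝ)) := by field_simp
      have h7 : 1 / (r : ℝ) ≤ 1 / 2 := one_div_le_one_div_of_le (by norm_num) (by linarith)
      rw [e]; linarith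
    linarith [hmvt.2]
  have e : ∫ x in Ioc s t, ff 1 (y x) * ff 1 (z x) = ∫ x in Ioc s t, F (y x) := by
    refine setIntegral_congr_fun measurableSet_Ioc fun x hx => ?_
    simp only [hF]
    rw [hwz x ⟨by linarith [hx.1], by linarith [hx.2]⟩]
  rw [e]
  have h8 : (r - 1) * ∫ x in Ioc s t, F (y x) ≤
      (r - 1) * (2 * K / a0 ^ 2 * ((t - s) + 1 / r) * (1 / (r : ℝ) ^ 2)) := by
    refine hcov.trans (hwin.trans ?_)
    calc (y t - y s + 1) * (K * (1 / (r * a0)) ^ 2) ≤
          ((r - 1) * (2 * ((t - s) + 1 / r))) * (K * (1 / (r * a0)) ^ 2) := by gcongr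
      _ = _ := by field_simp
  exact le_of_mul_le_mul_left h8 (by linarith)

end Pool.Agent.X37.RB
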