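import Mathlib
import Pool.Agent.X37.RB.Pair

set_option autoImplicit false

/-!
# Many curves: some value is prime with positive probability
-/

namespace Pool.Agent.X37.RB

open MeasureTheory Set Filter Topology
open Pool.Agent.H305R2 (NN ff measurable_NN measurable_ff ff_nonneg ff_le_one)
open Pool.Agent.X10.AI (ff_one measurableSet_prime)

/-- the event that some value is prime -/
def Ev (m : ℕ) (y : ℕ → ℝ → ℝ) : Set ℝ := {x | ∃ j < m, (NN (y j x)).Prime}

lemma measurableSet_Ev {m : ℕ} {y : ℕ → ℝ → ℝ} (hm : ∀ j < m, Measurable (y j)) :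
    MeasurableSet (Ev m y) := by
  have e : Ev m y = ⋃ j ∈ Finset.range m, (y j) ⁻¹' {u | (NN u).Prime} := by
    ext x
    simp only [Ev, Set.mem_iUnion, Finset.mem_range, Set.mem_preimage, Set.mem_ofPred_eq, exists_prop]
  rw [e]
  refine Finset.measurableSet_biUnion _ fun j hj => ?_
  exact (hm j (Finset.mem_range.1 hj)) measurableSet_prime

lemma ff_one_sq (u : ℝ) : ff 1 u * ff 1 u = ff 1 u := by
  rw [ff_one]; split_ifs <;> simp

/-- the second moment inequality -/
lemma second_moment {m : ℕ} {y : ℕ → ℝ → ℝ} (hm : ∀ j < m, Measurable (y j)) {s t A B : ℝ}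
    (hA : 0 < A) (hB : 0 < B)
    (h1 : A ≤ ∑ j ∈ Finset.range m, ∫ x in Ioc s t, ff 1 (y j x))
    (h2 : ∑ i ∈ Finset.range m, ∑ j ∈ Finset.range m, ∫ x in Ioc s t, ff 1 (y i x) * ff 1 (y j x) ≤ B) :
    A ^ 2 / B ≤ volume.real (Ev m y ∩ Ioc s t) := by
  set l : ℝ := B / A with hl
  have hl0 : 0 < l := by positivity
  set X : ℝ → ℝ := fun x => ∑ j ∈ Finset.range m, ff 1 (y j x) with hX
  have hX0 : ∀ x, 0 ≤ X x := fun x => Finset.sum_nonneg fun j _ => ff_nonneg _ _
  have hI : ∀ j ∈ Finset.range m, IntegrableOn (fun x => ff 1 (y j x)) (Ioc s t) := fun j hj => by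
    refine Measure.integrableOn_of_bounded (M := 1) (by simp)
      (((measurable_ff 1).comp (hm j (Finset.mem_range.1 hj))).aestronglyMeasurable)
      (Eventually.of_forall fun x => ?_)
    rw [Real.norm_eq_abs, abs_of_nonneg (ff_nonneg _ _)]
    exact ff_le_one _ _
  have hII : ∀ i ∈ Finset.range m, ∀ j ∈ Finset.range m,
      IntegrableOn (fun x => ff 1 (y i x) * ff 1 (y j x)) (Ioc s t) := fun i hi j hj => by
    refine Measure.integrableOn_of_bounded (M := 1) (by simp)
      ((((measurable_ff 1).comp (hm i (Finset.mem_range.1 hi))).mul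
        ((measurable_ff 1).comp (hm j (Finset.mem_range.1 hj)))).aestronglyMeasurable)
      (Eventually.of_forall fun x => ?_)
    rw [Real.norm_eq_abs, abs_of_nonneg (mul_nonneg (ff_nonneg _ _) (ff_nonneg _ _))]
    exact mul_le_one₀ (ff_le_one _ _) (ff_nonneg _ _) (ff_le_one _ _)
  have hXint : IntegrableOn X (Ioc s t) := integrable_finsetSum _ hI
  have hXX : ∀ x, X x ^ 2 = ∑ i ∈ Finset.range m, ∑ j ∈ Finset.range m, ff 1 (y i x) * ff 1 (y j x) := by
    intro x
    simp only [hX]
    rw [sq, Finset.sum_mul_sum]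
  have hX2int : IntegrableOn (fun x => X x ^ 2) (Ioc s t) := by
    have e : (fun x => X x ^ 2) = fun x => ∑ i ∈ Finset.range m, ∑ j ∈ Finset.range m,
        ff 1 (y i x) * ff 1 (y j x) := funext hXX
    rw [e]
    exact integrable_finsetSum _ fun i hi => integrable_finsetSum _ fun j hj => hII i hi j hj
  have hEm := measurableSet_Ev hm
  have hind : IntegrableOn ((Ev m y).indicator fun _ => (1 : ℝ)) (Ioc s t) := by
    refine Measure.integrableOn_of_bounded (M := 1) (by simp)
      ((measurable_const.indicator hEm).aestronglyMeasurable) (Eventually.of_forall fun x => ?_)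
    by_cases hx : x ∈ Ev m y
    · rw [indicator_of_mem hx]; simp
    · rw [indicator_of_notMem hx]; simp
  have hpt : ∀ x, X x ≤ 1 / (2 * l) * X x ^ 2 + l / 2 * (Ev m y).indicator (fun _ => (1 : ℝ)) x := by
    intro x
    by_cases hx : x ∈ Ev m y
    · rw [indicator_of_mem hx, mul_one]
      have e : 1 / (2 * l) * X x ^ 2 + l / 2 - X x = 1 / (2 * l) * (X x - l) ^ 2 := by
        field_simp; ring
      have : 0 ≤ 1 / (2 * l) * (X x - l) ^ 2 := by positivity
      linarith
    · rw [indicator_of_notMem hx, mul_zero, add_zero]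
      have e : X x = 0 := by
        refine Finset.sum_eq_zero fun j hj => ?_
        rw [ff_one, if_neg]
        intro hp
        exact hx ⟨j, Finset.mem_range.1 hj, hp⟩
      rw [e]; simp
  have hint : ∫ x in Ioc s t, X x ≤ 1 / (2 * l) * (∫ x in Ioc s t, X x ^ 2) +
      l / 2 * volume.real (Ev m y ∩ Ioc s t) := by
    have hEI : ∫ x in Ioc s t, (Ev m y).indicator (fun _ => (1 : ℝ)) x =
        volume.real (Ev m y ∩ Ioc s t) := by
      rw [integral_indicator hEm, Measure.restrict_restrict hEm, setIntegral_const, smul_eq_mul, mul_one]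
    rw [← hEI, ← integral_const_mul, ← integral_const_mul, ← integral_add (hX2int.const_mul _)
      (hind.const_mul _)]
    exact setIntegral_mono_on hXint ((hX2int.const_mul _).add (hind.const_mul _)) measurableSet_Ioc
      fun x _ => hpt x
  have hsum1 : ∫ x in Ioc s t, X x = ∑ j ∈ Finset.range m, ∫ x in Ioc s t, ff 1 (y j x) :=
    integral_finsetSum _ hI
  have hsum2 : ∫ x in Ioc s t, X x ^ 2 = ∑ i ∈ Finset.range m, ∑ j ∈ Finset.range m,
      ∫ x in Ioc s t, ff 1 (y i x) * ff 1 (y j x) := by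
    simp only [hXX]
    rw [integral_finsetSum _ fun i hi => integrable_finsetSum _ fun j hj => hII i hi j hj]
    refine Finset.sum_congr rfl fun i hi => ?_
    exact integral_finsetSum _ fun j hj => hII i hi j hj
  rw [hsum1, hsum2] at hint
  have h3 : 1 / (2 * l) * (∑ i ∈ Finset.range m, ∑ j ∈ Finset.range m,
      ∫ x in Ioc s t, ff 1 (y i x) * ff 1 (y j x)) ≤ 1 / (2 * l) * B :=
    mul_le_mul_of_nonneg_left h2 (by positivity)
  have h4 : 1 / (2 * l) * B = A / 2 := by rw [hl]; field_simp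
  have h5 : A ≤ l * volume.real (Ev m y ∩ Ioc s t) := by linarith
  rw [div_le_iff₀ hB]
  have h6 : A * A ≤ A * (l * volume.real (Ev m y ∩ Ioc s t)) := mul_le_mul_of_nonneg_left h5 hA.le
  have h7 : A * (l * volume.real (Ev m y ∩ Ioc s t)) = volume.real (Ev m y ∩ Ioc s t) * B := by
    rw [hl]; field_simp
  rw [sq]
  linarith

/-- **Some value is prime with probability bounded below.** -/
theorem fam {a0 a1 b0 b1 : ℝ} (ha0 : 0 < a0) (h0 : a0 < b0) (h01 : b0 < b1) (h1 : b1 < a1) {L : ℝ}
    (hL : 0 < L) : ∃ c : ℝ, 0 < c ∧ ∀ s t : ℝ, b0 ≤ s → s < t → t ≤ b1 → ∃ P : ℕ,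
    ∀ (m r0 : ℕ) (r : ℕ → ℕ) (y y' y'' : ℕ → ℝ → ℝ), P ≤ r0 → (r0 : ℝ) ≤ L * m → m ≤ r0 →
    (∀ j < m, r0 ≤ r j ∧ r j ≤ 2 * r0) → (∀ i j, i < j → j < m → r i < r j) →
    (∀ j < m, Measurable (y j)) →
    (∀ j < m, Cv a0 a1 (r j) (y j) (y' j) (y'' j)) →
    c * (t - s) ≤ volume.real (Ev m y ∩ Ioc s t) := by
  have ha1 : 0 < a1 := by linarith
  obtain ⟨K1, hK1, P1, hu⟩ := one_upper (a0 := a0) (a1 := a1) ha0
  obtain ⟨P2, hl⟩ := one_lower ha0 ha1
  obtain ⟨K2, hK2, P3, htw⟩ := two_upper ha0 h0 h1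
  refine ⟨1 / (64 * a1) ^ 2 / (2 * (K1 + K2) * L), by positivity, fun s t hs hst ht => ?_⟩
  have hts : 0 < t - s := by linarith
  obtain ⟨P4, hP4⟩ := eventually_atTop.1
    ((tendsto_natCast_atTop_atTop (R := ℝ)).eventually_gt_atTop (2 / (t - s)))
  refine ⟨P1 + P2 + P3 + P4 + 1, fun m r0 r y y' y'' hP hLm hmr hr hinj hmeas hcv => ?_⟩
  have hr01 : 1 ≤ r0 := by omega
  have hr0 : (0 : ℝ) < r0 := by exact_mod_cast hr01
  have hr0t : 2 ≤ r0 * (t - s) := by
    have := hP4 r0 (by omega)
    rw [div_lt_iff₀ hts] at this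
    exact this.le
  have hm0 : (0 : ℝ) < m := by
    by_contra hc
    have : (m : ℝ) = 0 := le_antisymm (not_lt.1 hc) (Nat.cast_nonneg m)
    rw [this, mul_zero] at hLm
    linarith
  have hmr' : (m : ℝ) ≤ r0 := by exact_mod_cast hmr
  have hinvr : 1 / (r0 : ℝ) ≤ t - s := by
    rw [div_le_iff₀ hr0]; linarith
  set A : ℝ := m * ((t - s) / (64 * a1 * r0)) with hA
  set B : ℝ := 2 * (K1 + K2) * (m * (t - s) / r0) with hB
  have hA0 : 0 < A := by positivity
  have hB0 : 0 < B := by positivity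
  have hrj : ∀ j < m, (r0 : ℝ) ≤ r j ∧ (r j : ℝ) ≤ 2 * r0 := fun j hj => by
    obtain ⟨p1, p2⟩ := hr j hj
    exact ⟨by exact_mod_cast p1, by exact_mod_cast p2⟩
  have hfirst : A ≤ ∑ j ∈ Finset.range m, ∫ x in Ioc s t, ff 1 (y j x) := by
    calc A = ∑ j ∈ Finset.range m, (t - s) / (64 * a1 * r0) := by
          rw [Finset.sum_const, Finset.card_range, nsmul_eq_mul]
      _ ≤ _ := by
          refine Finset.sum_le_sum fun j hj => ?_
          have hj := Finset.mem_range.1 hj
          obtain ⟨p1, p2⟩ := hrj j hj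
          obtain ⟨p3, p4⟩ := hr j hj
          have hrj0 : (0 : ℝ) < r j := by linarith
          have h2 : 2 ≤ (r j : ℝ) * (t - s) := by
            have : (r0 : ℝ) * (t - s) ≤ r j * (t - s) := mul_le_mul_of_nonneg_right p1 hts.le
            linarith
          refine le_trans ?_ (hl (r j) (by omega) _ _ _ (hcv j hj) s t (by linarith) hst.le
            (by linarith) h2)
          have h3 : 1 / (2 * (r0 : ℝ)) ≤ 1 / r j := one_div_le_one_div_of_le hrj0 p2
          calc (t - s) / (64 * a1 * r0) = (t - s) / (32 * a1) * (1 / (2 * r0)) := by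
                field_simp; try ring
            _ ≤ _ := mul_le_mul_of_nonneg_left h3 (by positivity)
  set D1 : ℝ := K1 * (2 * (t - s)) * (1 / r0) with hD1
  set D2 : ℝ := K2 * (2 * (t - s)) * (1 / (r0 : ℝ) ^ 2) with hD2
  have hD2' : 0 ≤ D2 := by positivity
  have hlt : ∀ i j, i < j → j < m → ∫ x in Ioc s t, ff 1 (y i x) * ff 1 (y j x) ≤ D2 := by
    intro i j hij hj
    have hi : i < m := by omega
    obtain ⟨p1, p2⟩ := hrj i hi
    obtain ⟨p3, p4⟩ := hr i hi
    obtain ⟨p5, p6⟩ := hr j hj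
    have hri0 : (0 : ℝ) < r i := by linarith
    refine (htw (r i) (by omega) (r j) (hinj i j hij hj) (by omega) _ _ _ _ _ _ (hcv i hi) (hcv j hj)
      s t hs hst.le ht).trans ?_
    have h3 : 1 / (r i : ℝ) ≤ 1 / r0 := one_div_le_one_div_of_le hr0 p1
    have h4 : 1 / (r i : ℝ) ^ 2 ≤ 1 / (r0 : ℝ) ^ 2 :=
      one_div_le_one_div_of_le (by positivity) (pow_le_pow_left₀ hr0.le p1 2)
    rw [hD2]
    have h5 : (t - s) + 1 / (r i : ℝ) ≤ 2 * (t - s) := by linarith
    gcongr
  have hsecond : ∑ i ∈ Finset.range m, ∑ j ∈ Finset.range m,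
      ∫ x in Ioc s t, ff 1 (y i x) * ff 1 (y j x) ≤ B := by
    calc ∑ i ∈ Finset.range m, ∑ j ∈ Finset.range m, ∫ x in Ioc s t, ff 1 (y i x) * ff 1 (y j x)
        ≤ ∑ i ∈ Finset.range m, ∑ j ∈ Finset.range m, ((if i = j then D1 else 0) + D2) := by
          refine Finset.sum_le_sum fun i hi => Finset.sum_le_sum fun j hj => ?_
          have hi := Finset.mem_range.1 hi
          have hj := Finset.mem_range.1 hj
          rcases lt_trichotomy i j with h | h | h
          · rw [if_neg h.ne, zero_add]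
            exact hlt i j h hj
          · rw [if_pos h, ← h]
            simp only [ff_one_sq]
            obtain ⟨p1, p2⟩ := hrj i hi
            obtain ⟨p3, p4⟩ := hr i hi
            have hri0 : (0 : ℝ) < r i := by linarith
            have h2 := hu (r i) (by omega) _ _ _ (hcv i hi) s t (by linarith) hst.le (by linarith)
            have h3 : 1 / (r i : ℝ) ≤ 1 / r0 := one_div_le_one_div_of_le hr0 p1
            have h5 : (t - s) + 1 / (r i : ℝ) ≤ 2 * (t - s) := by linarith
            have h6 : K1 * ((t - s) + 1 / r i) * (1 / r i) ≤ D1 := by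
              rw [hD1]
              gcongr
            linarith
          · rw [if_neg h.ne', zero_add]
            have h2 := hlt j i h hi
            simp only [mul_comm] at h2 ⊢
            exact h2
      _ = m * D1 + m * (m * D2) := by
          have e : ∀ i ∈ Finset.range m, ∑ j ∈ Finset.range m, ((if i = j then D1 else 0) + D2) =
              D1 + m * D2 := fun i hi => by
            rw [Finset.sum_add_distrib, Finset.sum_ite_eq, if_pos hi, Finset.sum_const,
              Finset.card_range, nsmul_eq_mul]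
          rw [Finset.sum_congr rfl e, Finset.sum_const, Finset.card_range, nsmul_eq_mul]
          ring
      _ ≤ B := by
          have h2 : (m : ℝ) * (1 / r0) ≤ 1 := by
            rw [mul_one_div, div_le_one hr0]; exact hmr'
          have h3 : (m : ℝ) * (m * D2) = (m * (1 / r0)) * (2 * K2 * (m * (t - s) / r0)) := by
            rw [hD2]; field_simp
          have h4 : (m : ℝ) * D1 = 2 * K1 * (m * (t - s) / r0) := by
            rw [hD1]; field_simp
          have h5 : 0 ≤ 2 * K2 * (m * (t - s) / r0) := by positivity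
          rw [h3, h4, hB]
          have h6 := mul_le_mul_of_nonneg_right h2 h5
          linarith
  refine le_trans ?_ (second_moment hmeas hA0 hB0 hfirst hsecond)
  rw [hA, hB, le_div_iff₀ hB0]
  have h7 : 1 ≤ L * m / r0 := by rw [le_div_iff₀ hr0]; linarith
  calc 1 / (64 * a1) ^ 2 / (2 * (K1 + K2) * L) * (t - s) * (2 * (K1 + K2) * (m * (t - s) / r0)) =
      (1 / (64 * a1) ^ 2 * (t - s) ^ 2 * m / (L * r0)) * 1 := by field_simp
    _ ≤ (1 / (64 * a1) ^ 2 * (t - s) ^ 2 * m / (L * r0)) * (L * m / r0) :=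
        mul_le_mul_of_nonneg_left h7 (by positivity)
    _ = _ := by field_simp

end Pool.Agent.X37.RB
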