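import Mathlib
import Pool.Agent.X37.RB.Curve
import Pool.Agent.X37.RB.Prob
import Pool.Agent.X37.RB.Dens
import Pool.Agent.W66.XG

set_option autoImplicit false

/-!
# The general theorem for families of exponential sums
-/

namespace Pool.Agent.X37.RB

open MeasureTheory Set Filter Topology
open Pool.Agent.H305R2 (NN)

/-- enough exponents for `n` -/
structure Good (η L : ℝ) (N : Set ℝ) (G : Set ℝ) (R : ℕ) (m r0 : ℕ) (r a b : ℕ → ℕ) : Prop where
  big : R ≤ r0
  len : (r0 : ℝ) ≤ L * m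
  mle : m ≤ r0
  rng : ∀ j < m, r0 ≤ r j ∧ r j ≤ 2 * r0
  mono : ∀ i j, i < j → j < m → r i < r j
  ha : ∀ j < m, 6 * a j ≤ 5 * r j
  hb : ∀ j < m, 6 * b j ≤ 5 * r j
  adm : ∀ j < m, ∀ t, 0 < t → t ∉ N → (NN (yc (r j) (a j) (b j) η t)).Prime → t ∈ G

section

variable {η L : ℝ} (hη : 0 ≤ η) (hη1 : η ≤ 1) (hL : 0 < L) {N : Set ℝ} (hN : volume N = 0)
  {G : ℕ → Set ℝ} {S : Set ℕ}
  (h : ∀ R : ℕ, ∃ n0 : ℕ, ∀ n ≥ n0, n ∈ S → ∃ (m r0 : ℕ) (r a b : ℕ → ℕ), Good η L N (G n) R m r0 r a b)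
include hη hη1 hL hN h

/-- the measure is bounded below -/
theorem gen_measure {b0 b1 : ℝ} (h0 : 0 < b0) (h01 : b0 < b1) : ∃ c : ℝ, 0 < c ∧ ∀ s t : ℝ,
    b0 ≤ s → s < t → t ≤ b1 → ∃ n0 : ℕ, ∀ n ≥ n0, n ∈ S →
    c * (t - s) ≤ volume.real (G n ∩ Ioc s t) := by
  obtain ⟨P1, hP1⟩ := cur (a0 := b0 / 2) (by positivity) (b1 + 1)
  obtain ⟨c, hc, hfam⟩ := fam (a0 := b0 / 2) (a1 := b1 + 1) (b0 := b0) (b1 := b1) (by positivity)
    (by linarith) h01 (by linarith) hL
  refine ⟨c, hc, fun s t hs hst ht => ?_⟩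
  obtain ⟨P2, hP2⟩ := hfam s t hs hst ht
  obtain ⟨n0, hn0⟩ := h (P1 + P2)
  refine ⟨n0, fun n hn hnS => ?_⟩
  obtain ⟨m, r0, r, a, b, hG⟩ := hn0 n hn hnS
  have hbig := hG.big
  have hmeas : ∀ j < m, Measurable (yc (r j) (a j) (b j) η) := fun j _ => by
    unfold yc Sc
    fun_prop
  have hmain := hP2 m r0 r (fun j => yc (r j) (a j) (b j) η) (fun j => yc1 (r j) (a j) (b j) η)
    (fun j => yc2 (r j) (a j) (b j) η) (by omega) hG.len hG.mle hG.rng hG.mono hmeas
    (fun j hj => by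
      have hr := hG.rng j hj
      obtain ⟨h1, h2⟩ := hP1 (r j) (by omega) (a j) (b j) (hG.ha j hj) (hG.hb j hj) η hη hη1
      exact ⟨h1, h2⟩)
  refine hmain.trans ?_
  have hsub : Ev m (fun j => yc (r j) (a j) (b j) η) ∩ Ioc s t ⊆ (G n ∩ Ioc s t) ∪ N := by
    rintro x ⟨⟨j, hj, hp⟩, hx⟩
    by_cases hxN : x ∈ N
    · exact Or.inr hxN
    · exact Or.inl ⟨hG.adm j hj x (by linarith [hx.1]) hxN hp, hx⟩
  have h1 : volume ((G n ∩ Ioc s t) ∪ N) = volume (G n ∩ Ioc s t) := by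
    refine le_antisymm ?_ (measure_mono subset_union_left)
    refine (measure_union_le _ _).trans ?_
    rw [hN, add_zero]
  have hfin : volume (G n ∩ Ioc s t) ≠ ⊤ := ne_top_of_le_ne_top (by simp) (measure_mono inter_subset_right)
  have h2 : volume (Ev m (fun j => yc (r j) (a j) (b j) η) ∩ Ioc s t) ≤ volume (G n ∩ Ioc s t) := by
    rw [← h1]; exact measure_mono hsub
  exact ENNReal.toReal_mono hfin h2

/-- positive upper density along sequences -/
theorem gen_density (hG : ∀ n, MeasurableSet (G n)) {u : ℕ → ℕ} (hu : ∀ k, u k ∈ S)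
    (hut : Tendsto u atTop atTop) : ∀ᵐ t : ℝ, 0 < t →
    ∃ c : ℝ, 0 < c ∧ ∃ᶠ K : ℕ in atTop, c * K ≤ cnt (fun k => G (u k)) K t := by
  have hw : ∀ M : ℕ, ∀ᵐ t : ℝ, t ∈ Ioo (1 / ((M : ℝ) + 2)) ((M : ℝ) + 2) →
      ∃ c : ℝ, 0 < c ∧ ∃ᶠ K : ℕ in atTop, c * K ≤ cnt (fun k => G (u k)) K t := by
    intro M
    have hM : (0 : ℝ) ≤ M := Nat.cast_nonneg M
    obtain ⟨c, hc, hm⟩ := gen_measure hη hη1 hL hN h (b0 := 1 / ((M : ℝ) + 2)) (b1 := (M : ℝ) + 2)
      (by positivity) (by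
        rw [div_lt_iff₀ (by positivity)]
        nlinarith)
    have := upper_density (E := fun k => G (u k)) (fun k => hG _) (b0 := 1 / ((M : ℝ) + 2))
      (b1 := (M : ℝ) + 2) hc (fun s t hs hst ht => by
        obtain ⟨n0, hn0⟩ := hm s t hs.le hst ht.le
        obtain ⟨k0, hk0⟩ := eventually_atTop.1 (hut.eventually_ge_atTop n0)
        exact ⟨k0, fun k hk => hn0 (u k) (hk0 k hk) (hu k)⟩)
    filter_upwards [this] with t ht htI
    exact ⟨c / 2, by positivity, ht htI⟩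
  filter_upwards [ae_all_iff.2 hw] with t ht ht0
  obtain ⟨M, hM⟩ := exists_nat_gt (t + 1 / t)
  have h1 : 0 < 1 / t := by positivity
  refine ht M ⟨?_, by linarith⟩
  rw [div_lt_iff₀ (by positivity)]
  have h2 : 1 / t < (M : ℝ) + 2 := by linarith
  rw [div_lt_iff₀ ht0] at h2
  linarith

end

/-- from logarithms to bases -/
lemma base_measure {H : Set ℝ} (hH : MeasurableSet H) {u v c : ℝ} (hu : 1 ≤ u) (huv : u < v)
    (h : c * (Real.log v - Real.log u) ≤
      volume.real (Real.exp ⁻¹' H ∩ Ioc (Real.log u) (Real.log v))) :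
    u * (c * (Real.log v - Real.log u)) ≤ volume.real (H ∩ Ioc u v) := by
  have hu0 : 0 < u := by linarith
  have hv0 : 0 < v := by linarith
  set T := Real.exp ⁻¹' H ∩ Ioc (Real.log u) (Real.log v) with hT
  have hTm : MeasurableSet T := (Real.measurable_exp hH).inter measurableSet_Ioc
  have himg : Real.exp '' T = H ∩ Ioc u v := by
    ext x
    constructor
    · rintro ⟨t, ⟨h1, h2⟩, rfl⟩
      refine ⟨h1, ?_, ?_⟩
      · rw [← Real.exp_log hu0]; exact Real.exp_lt_exp.2 h2.1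
      · rw [← Real.exp_log hv0]; exact Real.exp_le_exp.2 h2.2
    · rintro ⟨h1, h2⟩
      have hx0 : 0 < x := by linarith [h2.1]
      refine ⟨Real.log x, ⟨?_, Real.log_lt_log hu0 h2.1, Real.log_le_log hx0 h2.2⟩, Real.exp_log hx0⟩
      rw [mem_preimage, Real.exp_log hx0]
      exact h1
  have hTfin : volume T ≠ ⊤ := ne_top_of_le_ne_top (by simp) (measure_mono inter_subset_right)
  have hcov := integral_image_eq_integral_abs_deriv_smul hTm
    (fun x _ => (Real.hasDerivAt_exp x).hasDerivWithinAt) (Real.exp_injective.injOn) (fun _ => (1 : ℝ))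
  rw [himg, setIntegral_const, smul_eq_mul, mul_one] at hcov
  rw [hcov]
  have hint : IntegrableOn (fun x => |Real.exp x| • (1 : ℝ)) T := by
    refine Measure.integrableOn_of_bounded (M := v) hTfin
      (by fun_prop) ?_
    refine (ae_restrict_iff' hTm).2 (Eventually.of_forall fun x hx => ?_)
    rw [smul_eq_mul, mul_one, Real.norm_eq_abs, abs_abs, abs_of_pos (Real.exp_pos x)]
    rw [← Real.exp_log hv0]; exact Real.exp_le_exp.2 hx.2.2
  calc u * (c * (Real.log v - Real.log u)) ≤ u * volume.real T := mul_le_mul_of_nonneg_left h hu0.le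
    _ = ∫ x in T, u := by rw [setIntegral_const, smul_eq_mul, mul_comm]
    _ ≤ _ := by
        refine setIntegral_mono_on (integrableOn_const hTfin) hint hTm fun x hx => ?_
        rw [smul_eq_mul, mul_one, abs_of_pos (Real.exp_pos x), ← Real.exp_log hu0]
        exact Real.exp_le_exp.2 hx.2.1.le

/-- `log v - log u ≥ (v - u) / v` -/
lemma log_sub_ge {u v : ℝ} (hu : 0 < u) (huv : u < v) : (v - u) / v ≤ Real.log v - Real.log u := by
  have hv : 0 < v := by linarith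
  rw [← Real.log_div hv.ne' hu.ne']
  have h1 := Real.one_sub_inv_le_log_of_pos (show 0 < v / u by positivity)
  have h2 : 1 - (v / u)⁻¹ = (v - u) / v := by field_simp
  linarith

end Pool.Agent.X37.RB
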