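import Mathlib
import Pool.Agent.X37.RB.Curve
import Pool.Agent.X10.AI.Space

set_option autoImplicit false

/-!
# The values are integers only for countably many arguments
-/

namespace Pool.Agent.X37.RB

open MeasureTheory Set Filter Topology
open Pool.Agent.H305R2 (NN)
open Pool.Agent.X10.AI (NN_floor)

/-- the exceptional set -/
def NS (η : ℝ) : Set ℝ := {t : ℝ | ∃ r a b m : ℕ, 1 ≤ r ∧ Sc r a b η t = m}

lemma Sc_strictMono {r a b : ℕ} {η : ℝ} (hη : 0 ≤ η) (hr : 1 ≤ r) : StrictMono (Sc r a b η) := by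
  intro s t hst
  have hr0 : (0 : ℝ) < r := by exact_mod_cast hr
  have h1 : Real.exp (r * s) < Real.exp (r * t) := Real.exp_lt_exp.2 (by nlinarith)
  have h2 : Real.exp (a * s) ≤ Real.exp (a * t) :=
    Real.exp_le_exp.2 (mul_le_mul_of_nonneg_left hst.le (Nat.cast_nonneg a))
  have h3 : Real.exp (b * s) ≤ Real.exp (b * t) :=
    Real.exp_le_exp.2 (mul_le_mul_of_nonneg_left hst.le (Nat.cast_nonneg b))
  have h4 := mul_le_mul_of_nonneg_left h3 hη
  unfold Sc
  linarith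

lemma NS_null {η : ℝ} (hη : 0 ≤ η) : volume (NS η) = 0 := by
  have e : NS η ⊆ ⋃ r : ℕ, ⋃ a : ℕ, ⋃ b : ℕ, ⋃ m : ℕ, {t : ℝ | 1 ≤ r ∧ Sc r a b η t = m} := by
    rintro t ⟨r, a, b, m, hr, h⟩
    simp only [Set.mem_iUnion]
    exact ⟨r, a, b, m, hr, h⟩
  refine measure_mono_null e (Set.Countable.measure_zero ?_ volume)
  refine Set.countable_iUnion fun r => Set.countable_iUnion fun a => Set.countable_iUnion fun b =>
    Set.countable_iUnion fun m => ?_
  refine Set.Subsingleton.countable ?_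
  intro x hx y hy
  simp only [Set.mem_ofPred_eq] at hx hy
  exact (Sc_strictMono hη hx.1).injective (hx.2.trans hy.2.symm)

lemma NN_yc {r a b : ℕ} {η t : ℝ} (hη : 0 ≤ η) (hr : 1 ≤ r) (ht : t ∉ NS η) :
    NN (yc r a b η t) = ⌊Real.exp (r * t) + Real.exp (a * t) + η * Real.exp (b * t)⌋₊ + 1 := by
  have h1 : NN (yc r a b η t) = ⌊Sc r a b η t⌋₊ :=
    NN_floor (Sc_pos hη) fun m hm => ht ⟨r, a, b, m, hr, hm⟩
  rw [h1]
  have e : Sc r a b η t = Real.exp (r * t) + Real.exp (a * t) + η * Real.exp (b * t) + 1 := by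
    unfold Sc; ring
  rw [e, Nat.floor_add_one]
  have := Real.exp_pos ((r : ℝ) * t)
  have := Real.exp_pos ((a : ℝ) * t)
  have := mul_nonneg hη (Real.exp_pos ((b : ℝ) * t)).le
  linarith

lemma exp_pow' (k : ℕ) (t : ℝ) : Real.exp t ^ k = Real.exp (k * t) := by
  rw [← Real.exp_nat_mul]

end Pool.Agent.X37.RB
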