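import Mathlib
import Pool.Agent.X37.RB.Gen
import Pool.Agent.X37.RB.Null
import Pool.Agent.H141R2.FS.Three

set_option autoImplicit false

/-!
# Four squares with two exponents
-/

namespace Pool.Agent.X37.RB

open MeasureTheory Set Filter Topology

/-- `n` is a sum of four squares with the value prime -/
def Adm1 (β : ℝ) (n : ℕ) : Prop := ∃ x y z w : ℕ, x ^ 2 + y ^ 2 + z ^ 2 + w ^ 2 = n ∧
  (⌊β ^ (x + y) + β ^ (z + w)⌋₊ + 1).Prime

lemma split_core {n r b s a : ℕ} (hr : r % 2 = 1) (hb : b % 2 = 1) (hs : s % 2 = 0) (ha : a % 2 = 0)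
    (hle : a ≤ s) (h : b ^ 2 + s ^ 2 + a ^ 2 + r ^ 2 = 2 * n) (h1 : 6 * n ≤ 5 * r ^ 2) :
    ∃ x y z w : ℕ, x ^ 2 + y ^ 2 + z ^ 2 + w ^ 2 = n ∧ x + y = s ∧ z + w = r ∧ 6 * s ≤ 5 * r := by
  have hbr : b ≤ r := by nlinarith
  have hsr : 6 * s ≤ 5 * r := by nlinarith
  obtain ⟨a', rfl⟩ : ∃ a', a = 2 * a' := ⟨a / 2, by omega⟩
  obtain ⟨s', rfl⟩ : ∃ s', s = 2 * s' := ⟨s / 2, by omega⟩
  obtain ⟨b', rfl⟩ : ∃ b', b = 2 * b' + 1 := ⟨b / 2, by omega⟩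
  obtain ⟨r', rfl⟩ : ∃ r', r = 2 * r' + 1 := ⟨r / 2, by omega⟩
  obtain ⟨k, rfl⟩ := Nat.exists_eq_add_of_le (show a' ≤ s' by omega)
  obtain ⟨l, rfl⟩ := Nat.exists_eq_add_of_le (show b' ≤ r' by omega)
  refine ⟨2 * a' + k, k, 2 * b' + l + 1, l, ?_, by ring, by ring, hsr⟩
  have h2 : 2 * ((2 * a' + k) ^ 2 + k ^ 2 + (2 * b' + l + 1) ^ 2 + l ^ 2) = 2 * n := by
    rw [← h]; ring
  omega

lemma sq_mod_four (a : ℕ) : (a % 2 = 0 ∧ a ^ 2 % 4 = 0) ∨ (a % 2 = 1 ∧ a ^ 2 % 4 = 1) := by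
  rcases Nat.mod_two_eq_zero_or_one a with h | h
  · left
    obtain ⟨k, rfl⟩ : ∃ k, a = 2 * k := ⟨a / 2, by omega⟩
    refine ⟨h, ?_⟩
    have : (2 * k) ^ 2 = 4 * k ^ 2 := by ring
    omega
  · right
    obtain ⟨k, rfl⟩ : ∃ k, a = 2 * k + 1 := ⟨a / 2, by omega⟩
    refine ⟨h, ?_⟩
    have : (2 * k + 1) ^ 2 = 4 * (k ^ 2 + k) + 1 := by ring
    omega

lemma split_one {n r : ℕ} (hn : Odd n) (hr : r % 2 = 1) (h1 : 6 * n ≤ 5 * r ^ 2) (h2 : r ^ 2 ≤ 2 * n) :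
    ∃ x y z w s : ℕ, x ^ 2 + y ^ 2 + z ^ 2 + w ^ 2 = n ∧ x + y = s ∧ z + w = r ∧ 6 * s ≤ 5 * r := by
  have hn2 := Nat.odd_iff.1 hn
  obtain ⟨m, hm⟩ := Nat.exists_eq_add_of_le h2
  have hr4 : r ^ 2 % 4 = 1 := by
    rcases sq_mod_four r with h | h <;> omega
  have hm4 : m % 4 = 1 := by omega
  obtain ⟨A, B, C, hABC⟩ := Pool.Agent.H141R2.FS.three_squares_one hm4
  have hnat : A.natAbs ^ 2 + B.natAbs ^ 2 + C.natAbs ^ 2 = m := by
    have : ((A.natAbs ^ 2 + B.natAbs ^ 2 + C.natAbs ^ 2 : ℕ) : ℤ) = (m : ℤ) := by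
      push_cast
      rw [sq_abs, sq_abs, sq_abs]
      exact hABC
    exact_mod_cast this
  generalize A.natAbs = a at hnat
  generalize B.natAbs = b at hnat
  generalize C.natAbs = c at hnat
  have key : ∀ b s a : ℕ, b % 2 = 1 → s % 2 = 0 → a % 2 = 0 → b ^ 2 + s ^ 2 + a ^ 2 = m →
      ∃ x y z w s : ℕ, x ^ 2 + y ^ 2 + z ^ 2 + w ^ 2 = n ∧ x + y = s ∧ z + w = r ∧ 6 * s ≤ 5 * r := by
    intro b s a hb hs ha h
    rcases le_total a s with hle | hle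
    · obtain ⟨x, y, z, w, h3⟩ := split_core (n := n) hr hb hs ha hle (by omega) h1
      exact ⟨x, y, z, w, s, h3⟩
    · obtain ⟨x, y, z, w, h3⟩ := split_core (n := n) hr hb ha hs hle (by omega) h1
      exact ⟨x, y, z, w, a, h3⟩
  rcases sq_mod_four a with ha | ha <;> rcases sq_mod_four b with hb | hb <;>
    rcases sq_mod_four c with hc | hc
  · omega
  · exact key c a b hc.1 ha.1 hb.1 (by omega)
  · exact key b a c hb.1 ha.1 hc.1 (by omega)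
  · omega
  · exact key a b c ha.1 hb.1 hc.1 (by omega)
  · omega
  · omega
  · omega

/-- enough exponents -/
lemma good_one (R : ℕ) : ∃ n0 : ℕ, ∀ n ≥ n0, n ∈ {n : ℕ | Odd n} →
    ∃ (m r0 : ℕ) (r a b : ℕ → ℕ), Good 0 60 (NS 0) {t : ℝ | Adm1 (Real.exp t) n} R m r0 r a b := by
  refine ⟨(1000 + R) ^ 2, fun n hn hodd => ?_⟩
  set q := Nat.sqrt n with hq
  have hqR : 1000 + R ≤ q := by
    rw [hq, Nat.le_sqrt']; exact hn
  have hq1 : q ^ 2 ≤ n := Nat.sqrt_le' n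
  have hq2 : n < (q + 1) ^ 2 := Nat.lt_succ_sqrt' n
  set h := 11 * q / 20 + 2 with hh
  set m := q / 20 with hm
  have hh1 : 11 * q + 20 ≤ 20 * h := by omega
  have hh2 : 20 * h ≤ 11 * q + 40 := by omega
  have hm1 : 20 * m ≤ q := by omega
  have hm2 : q < 20 * m + 20 := by omega
  have hex : ∀ j : ℕ, j < m → ∃ x y z w s : ℕ, x ^ 2 + y ^ 2 + z ^ 2 + w ^ 2 = n ∧ x + y = s ∧
      z + w = 2 * (h + j) + 1 ∧ 6 * s ≤ 5 * (2 * (h + j) + 1) := by
    intro j hj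
    have hr1 : 11 * (q + 1) ≤ 10 * (2 * (h + j) + 1) := by omega
    have hr2 : 10 * (2 * (h + j) + 1) ≤ 14 * q := by omega
    refine split_one hodd (by omega) ?_ ?_
    · have h3 : (11 * (q + 1)) ^ 2 ≤ (10 * (2 * (h + j) + 1)) ^ 2 := Nat.pow_le_pow_left hr1 2
      nlinarith
    · have h3 : (10 * (2 * (h + j) + 1)) ^ 2 ≤ (14 * q) ^ 2 := Nat.pow_le_pow_left hr2 2
      nlinarith
  choose! x y z w s hs using hex
  refine ⟨m, 2 * h + 1, fun j => 2 * (h + j) + 1, s, fun _ => 0, ?_, ?_, ?_, ?_, ?_, ?_, ?_, ?_⟩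
  · omega
  · have : 2 * h + 1 ≤ 60 * m := by omega
    exact_mod_cast this
  · omega
  · intro j hj
    constructor <;> omega
  · intro i j hij _
    show 2 * (h + i) + 1 < 2 * (h + j) + 1
    omega
  · intro j hj
    exact (hs j hj).2.2.2
  · intro j hj
    show 6 * 0 ≤ 5 * (2 * (h + j) + 1)
    omega
  · intro j hj t ht htN hp
    obtain ⟨h3, h4, h5, _⟩ := hs j hj
    rw [NN_yc le_rfl (by omega) htN, zero_mul, add_zero] at hp
    refine ⟨x j, y j, z j, w j, h3, ?_⟩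
    rw [h4, h5, exp_pow', exp_pow', add_comm (Real.exp _)]
    exact hp

lemma measurable_Adm1 (n : ℕ) : MeasurableSet {β : ℝ | Adm1 β n} := by
  have e : {β : ℝ | Adm1 β n} = ⋃ x : ℕ, ⋃ y : ℕ, ⋃ z : ℕ, ⋃ w : ℕ,
      {β : ℝ | x ^ 2 + y ^ 2 + z ^ 2 + w ^ 2 = n ∧ (⌊β ^ (x + y) + β ^ (z + w)⌋₊ + 1).Prime} := by
    ext β
    simp only [Adm1, Set.mem_iUnion, Set.mem_ofPred_eq]
  rw [e]
  refine MeasurableSet.iUnion fun x => MeasurableSet.iUnion fun y => MeasurableSet.iUnion fun z =>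
    MeasurableSet.iUnion fun w => ?_
  refine (MeasurableSet.const _).inter ?_
  have hm : Measurable fun β : ℝ => ⌊β ^ (x + y) + β ^ (z + w)⌋₊ :=
    Nat.measurable_floor.comp (by fun_prop)
  exact hm (MeasurableSet.of_discrete (s := {k : ℕ | (k + 1).Prime}))

/-- the measure of the good bases -/
theorem one_measure {A B : ℝ} (hA : 1 < A) (hAB : A < B) : ∃ c : ℝ, 0 < c ∧ ∀ u v : ℝ, A ≤ u → u < v →
    v ≤ B → ∃ n0 : ℕ, ∀ n ≥ n0, Odd n → c * (v - u) ≤ volume.real ({β : ℝ | Adm1 β n} ∩ Ioc u v) := by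
  have hA0 : 0 < A := by linarith
  obtain ⟨c, hc, hm⟩ := gen_measure (η := 0) (L := 60) le_rfl zero_le_one (by norm_num)
    (NS_null le_rfl) good_one (Real.log_pos hA) (Real.log_lt_log hA0 hAB)
  have hB0 : 0 < B := by linarith
  refine ⟨c / B, by positivity, fun u v hu huv hv => ?_⟩
  have hu0 : 0 < u := by linarith
  have hv0 : 0 < v := by linarith
  obtain ⟨n0, hn0⟩ := hm (Real.log u) (Real.log v) (Real.log_le_log hA0 hu) (Real.log_lt_log hu0 huv)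
    (Real.log_le_log hv0 hv)
  refine ⟨n0, fun n hn hodd => ?_⟩
  have h1 := base_measure (measurable_Adm1 n) (by linarith) huv (hn0 n hn hodd)
  refine le_trans ?_ h1
  have h2 := log_sub_ge hu0 huv
  have h3 : (v - u) / B ≤ (v - u) / v := div_le_div_of_nonneg_left (by linarith) hv0 hv
  have h4 : c * ((v - u) / B) ≤ c * (Real.log v - Real.log u) :=
    mul_le_mul_of_nonneg_left (by linarith) hc.le
  have h5 : 0 ≤ c * (Real.log v - Real.log u) := le_trans (by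
    have : 0 ≤ (v - u) / B := div_nonneg (by linarith) hB0.le
    positivity) h4
  calc c / B * (v - u) = c * ((v - u) / B) := by ring
    _ ≤ c * (Real.log v - Real.log u) := h4
    _ = 1 * (c * (Real.log v - Real.log u)) := (one_mul _).symm
    _ ≤ _ := mul_le_mul_of_nonneg_right (by linarith) h5

/-- positive upper density for almost every base -/
theorem one_density {u : ℕ → ℕ} (hu : ∀ k, Odd (u k)) (hut : Tendsto u atTop atTop) :
    ∀ᵐ β : ℝ, 1 < β → ∃ c : ℝ, 0 < c ∧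
      ∃ᶠ K : ℕ in atTop, c * K ≤ cnt (fun k => {β : ℝ | Adm1 β (u k)}) K β := by
  have h1 := gen_density (η := 0) (L := 60) le_rfl zero_le_one (by norm_num)
    (NS_null le_rfl) good_one (G := fun n => {t : ℝ | Adm1 (Real.exp t) n})
    (fun n => Real.measurable_exp (measurable_Adm1 n)) hu hut
  have h2 : ∀ᵐ t : ℝ, 1 < Real.exp t → ∃ c : ℝ, 0 < c ∧
      ∃ᶠ K : ℕ in atTop, c * K ≤ cnt (fun k => {β : ℝ | Adm1 β (u k)}) K (Real.exp t) := by
    filter_upwards [h1] with t ht ht1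
    exact ht (by rwa [Real.one_lt_exp_iff] at ht1)
  have h3 := Pool.Agent.W66X.ae_of_exp' (P := fun β => 1 < β → ∃ c : ℝ, 0 < c ∧
      ∃ᶠ K : ℕ in atTop, c * K ≤ cnt (fun k => {β : ℝ | Adm1 β (u k)}) K β) h2
  filter_upwards [h3] with β hβ hβ1
  exact hβ (by linarith) hβ1

end Pool.Agent.X37.RB
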