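import Mathlib
import Pool.Agent.X37.RB.One
import Pool.Agent.H565R2.NS.Tsq

set_option autoImplicit false

/-!
# Sums `x² + y² + z² + 4 w²` with three exponents
-/

namespace Pool.Agent.X37.RB

open MeasureTheory Set Filter Topology

/-- `n` is of the form `x² + y² + z² + 4 w²` with the value prime -/
def Adm2 (β : ℝ) (n : ℕ) : Prop := ∃ x y z w : ℕ, x ^ 2 + y ^ 2 + z ^ 2 + 4 * w ^ 2 = n ∧
  (⌊β ^ x + β ^ y + β ^ z⌋₊ + 1).Prime

lemma nat_squares {m : ℕ} {A B C : ℤ} (h : A ^ 2 + B ^ 2 + C ^ 2 = m) :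
    A.natAbs ^ 2 + B.natAbs ^ 2 + C.natAbs ^ 2 = m := by
  have : ((A.natAbs ^ 2 + B.natAbs ^ 2 + C.natAbs ^ 2 : ℕ) : ℤ) = (m : ℤ) := by
    push_cast
    rw [sq_abs, sq_abs, sq_abs]
    exact h
  exact_mod_cast this

lemma split_two {n x : ℕ} (hpar : (n % 4 = 1 ∧ x % 2 = 0) ∨ (n % 4 = 3 ∧ x % 2 = 1))
    (h1 : 36 * n ≤ 61 * x ^ 2) (h2 : x ^ 2 ≤ n) :
    ∃ y z w : ℕ, x ^ 2 + y ^ 2 + z ^ 2 + 4 * w ^ 2 = n ∧ 6 * y ≤ 5 * x ∧ 6 * z ≤ 5 * x := by
  obtain ⟨m, hm⟩ := Nat.exists_eq_add_of_le h2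
  have hx4 := sq_mod_four x
  have hm4 : m % 4 = 1 ∨ m % 4 = 2 := by
    rcases hpar with h | h <;> rcases hx4 with h' | h' <;> omega
  obtain ⟨a, b, c, habc⟩ : ∃ a b c : ℕ, a ^ 2 + b ^ 2 + c ^ 2 = m := by
    rcases hm4 with h | h
    · obtain ⟨A, B, C, hABC⟩ := Pool.Agent.H141R2.FS.three_squares_one h
      exact ⟨_, _, _, nat_squares hABC⟩
    · obtain ⟨A, B, C, hABC⟩ := Pool.Agent.H565R2.NS.three_squares_two h
      exact ⟨_, _, _, nat_squares hABC⟩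
  have key : ∀ y z c : ℕ, c % 2 = 0 → y ^ 2 + z ^ 2 + c ^ 2 = m →
      ∃ y z w : ℕ, x ^ 2 + y ^ 2 + z ^ 2 + 4 * w ^ 2 = n ∧ 6 * y ≤ 5 * x ∧ 6 * z ≤ 5 * x := by
    intro y z c hc h
    obtain ⟨w, rfl⟩ : ∃ w, c = 2 * w := ⟨c / 2, by omega⟩
    refine ⟨y, z, w, ?_, ?_, ?_⟩
    · rw [hm, ← h]; ring
    · nlinarith
    · nlinarith
  rcases sq_mod_four a with ha | ha
  · exact key b c a ha.1 (by omega)
  · rcases sq_mod_four b with hb | hb
    · exact key a c b hb.1 (by omega)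
    · rcases sq_mod_four c with hc | hc
      · exact key a b c hc.1 (by omega)
      · omega

/-- enough exponents -/
lemma good_two (R : ℕ) : ∃ n0 : ℕ, ∀ n ≥ n0, n ∈ {n : ℕ | Odd n} →
    ∃ (m r0 : ℕ) (r a b : ℕ → ℕ), Good 1 60 (NS 1) {t : ℝ | Adm2 (Real.exp t) n} R m r0 r a b := by
  refine ⟨(1000 + 2 * R) ^ 2, fun n hn hodd => ?_⟩
  set q := Nat.sqrt n with hq
  have hqR : 1000 + 2 * R ≤ q := by
    rw [hq, Nat.le_sqrt']; exact hn
  have hq1 : q ^ 2 ≤ n := Nat.sqrt_le' n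
  have hq2 : n < (q + 1) ^ 2 := Nat.lt_succ_sqrt' n
  have hn2 := Nat.odd_iff.1 hodd
  set e := if n % 4 = 1 then 0 else 1 with he
  have hpar : ∀ k : ℕ, (n % 4 = 1 ∧ (2 * k + e) % 2 = 0) ∨ (n % 4 = 3 ∧ (2 * k + e) % 2 = 1) := by
    intro k
    by_cases h : n % 4 = 1
    · left
      rw [he, if_pos h]
      omega
    · right
      rw [he, if_neg h]
      omega
  have he1 : e ≤ 1 := by
    rw [he]; split_ifs <;> omega
  set h := 2 * q / 5 + 2 with hh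
  set m := q / 20 with hm
  have hh1 : 2 * q + 5 ≤ 5 * h := by omega
  have hh2 : 5 * h ≤ 2 * q + 10 := by omega
  have hm1 : 20 * m ≤ q := by omega
  have hm2 : q < 20 * m + 20 := by omega
  have hex : ∀ j : ℕ, j < m → ∃ y z w : ℕ, (2 * (h + j) + e) ^ 2 + y ^ 2 + z ^ 2 + 4 * w ^ 2 = n ∧
      6 * y ≤ 5 * (2 * (h + j) + e) ∧ 6 * z ≤ 5 * (2 * (h + j) + e) := by
    intro j hj
    have hr1 : 4 * (q + 1) ≤ 5 * (2 * (h + j) + e) := by omega
    have hr2 : 2 * (h + j) + e ≤ q := by omega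
    refine split_two (hpar (h + j)) ?_ ?_
    · have h3 : (4 * (q + 1)) ^ 2 ≤ (5 * (2 * (h + j) + e)) ^ 2 := Nat.pow_le_pow_left hr1 2
      nlinarith
    · exact (Nat.pow_le_pow_left hr2 2).trans hq1
  choose! y z w hs using hex
  refine ⟨m, 2 * h + e, fun j => 2 * (h + j) + e, y, z, ?_, ?_, ?_, ?_, ?_, ?_, ?_, ?_⟩
  · omega
  · have : 2 * h + e ≤ 60 * m := by omega
    exact_mod_cast this
  · omega
  · intro j hj
    constructor <;> omega
  · intro i j hij _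
    show 2 * (h + i) + e < 2 * (h + j) + e
    omega
  · intro j hj
    exact (hs j hj).2.1
  · intro j hj
    exact (hs j hj).2.2
  · intro j hj t ht htN hp
    obtain ⟨h3, h4, h5⟩ := hs j hj
    rw [NN_yc zero_le_one (by omega) htN, one_mul] at hp
    refine ⟨2 * (h + j) + e, y j, z j, w j, h3, ?_⟩
    rw [exp_pow', exp_pow', exp_pow']
    exact hp

lemma measurable_Adm2 (n : ℕ) : MeasurableSet {β : ℝ | Adm2 β n} := by
  have e : {β : ℝ | Adm2 β n} = ⋃ x : ℕ, ⋃ y : ℕ, ⋃ z : ℕ, ⋃ w : ℕ,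
      {β : ℝ | x ^ 2 + y ^ 2 + z ^ 2 + 4 * w ^ 2 = n ∧ (⌊β ^ x + β ^ y + β ^ z⌋₊ + 1).Prime} := by
    ext β
    simp only [Adm2, Set.mem_iUnion, Set.mem_ofPred_eq]
  rw [e]
  refine MeasurableSet.iUnion fun x => MeasurableSet.iUnion fun y => MeasurableSet.iUnion fun z =>
    MeasurableSet.iUnion fun w => ?_
  refine (MeasurableSet.const _).inter ?_
  have hm : Measurable fun β : ℝ => ⌊β ^ x + β ^ y + β ^ z⌋₊ :=
    Nat.measurable_floor.comp (by fun_prop)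
  exact hm (MeasurableSet.of_discrete (s := {k : ℕ | (k + 1).Prime}))

/-- the measure of the good bases -/
theorem two_measure {A B : ℝ} (hA : 1 < A) (hAB : A < B) : ∃ c : ℝ, 0 < c ∧ ∀ u v : ℝ, A ≤ u → u < v →
    v ≤ B → ∃ n0 : ℕ, ∀ n ≥ n0, Odd n → c * (v - u) ≤ volume.real ({β : ℝ | Adm2 β n} ∩ Ioc u v) := by
  have hA0 : 0 < A := by linarith
  obtain ⟨c, hc, hm⟩ := gen_measure (η := 1) (L := 60) zero_le_one le_rfl (by norm_num)
    (NS_null zero_le_one) good_two (Real.log_pos hA) (Real.log_lt_log hA0 hAB)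
  have hB0 : 0 < B := by linarith
  refine ⟨c / B, by positivity, fun u v hu huv hv => ?_⟩
  have hu0 : 0 < u := by linarith
  have hv0 : 0 < v := by linarith
  obtain ⟨n0, hn0⟩ := hm (Real.log u) (Real.log v) (Real.log_le_log hA0 hu) (Real.log_lt_log hu0 huv)
    (Real.log_le_log hv0 hv)
  refine ⟨n0, fun n hn hodd => ?_⟩
  have h1 := base_measure (measurable_Adm2 n) (by linarith) huv (hn0 n hn hodd)
  refine le_trans ?_ h1
  have h2 := log_sub_ge hu0 huv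
  have h3 : (v - u) / B ≤ (v - u) / v := div_le_div_of_nonneg_left (by linarith) hv0 hv
  have h4 : c * ((v - u) / B) ≤ c * (Real.log v - Real.log u) :=
    mul_le_mul_of_nonneg_left (by linarith) hc.le
  have h5 : 0 ≤ c * (Real.log v - Real.log u) := le_trans (by
    have : 0 ≤ (v - u) / B := div_nonneg (by linarith) hB0.le
    positivity) h4
  calc c / B * (v - u) = c * ((v - u) / B) := by ring
    _ ≤ c * (Real.log v - Real.log u) := h4
    _ = 1 * (c * (Real.log v - Real.log u)) := (one_mul _).symm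
    _ ≤ _ := mul_le_mul_of_nonneg_right (by linarith) h5

/-- positive upper density for almost every base -/
theorem two_density {u : ℕ → ℕ} (hu : ∀ k, Odd (u k)) (hut : Tendsto u atTop atTop) :
    ∀ᵐ β : ℝ, 1 < β → ∃ c : ℝ, 0 < c ∧
      ∃ᶠ K : ℕ in atTop, c * K ≤ cnt (fun k => {β : ℝ | Adm2 β (u k)}) K β := by
  have h1 := gen_density (η := 1) (L := 60) zero_le_one le_rfl (by norm_num)
    (NS_null zero_le_one) good_two (G := fun n => {t : ℝ | Adm2 (Real.exp t) n})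
    (fun n => Real.measurable_exp (measurable_Adm2 n)) hu hut
  have h2 : ∀ᵐ t : ℝ, 1 < Real.exp t → ∃ c : ℝ, 0 < c ∧
      ∃ᶠ K : ℕ in atTop, c * K ≤ cnt (fun k => {β : ℝ | Adm2 β (u k)}) K (Real.exp t) := by
    filter_upwards [h1] with t ht ht1
    exact ht (by rwa [Real.one_lt_exp_iff] at ht1)
  have h3 := Pool.Agent.W66X.ae_of_exp' (P := fun β => 1 < β → ∃ c : ℝ, 0 < c ∧
      ∃ᶠ K : ℕ in atTop, c * K ≤ cnt (fun k => {β : ℝ | Adm2 β (u k)}) K β) h2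
  filter_upwards [h3] with β hβ hβ1
  exact hβ (by linarith) hβ1

end Pool.Agent.X37.RB
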