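import Mathlib
import Pool.Agent.X37.RB.Two

set_option autoImplicit false

/-!
# Sums `x² + y² + z² + 4 w²` with three exponents, the leading one in a residue class
-/

namespace Pool.Agent.X37.RB

open MeasureTheory Set Filter Topology

/-- `n` is of the form `x² + y² + z² + 4 w²` with the value prime, `x ≡ h` modulo `m` and
`y, z ≤ 5 x / 6` -/
def Adm3 (m h : ℕ) (β : ℝ) (n : ℕ) : Prop := ∃ x y z w : ℕ, x % m = h % m ∧ 6 * y ≤ 5 * x ∧
  6 * z ≤ 5 * x ∧ x ^ 2 + y ^ 2 + z ^ 2 + 4 * w ^ 2 = n ∧ (⌊β ^ x + β ^ y + β ^ z⌋₊ + 1).Prime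

/-- enough exponents -/
lemma good_three {m : ℕ} (hm : Odd m) (h : ℕ) (R : ℕ) : ∃ n0 : ℕ, ∀ n ≥ n0, n ∈ {n : ℕ | Odd n} →
    ∃ (k r0 : ℕ) (r a b : ℕ → ℕ),
      Good 1 (40 * m) (NS 1) {t : ℝ | Adm3 m h (Real.exp t) n} R k r0 r a b := by
  have hm0 : 0 < m := hm.pos
  refine ⟨(1000 + 100 * m + 2 * R) ^ 2, fun n hn hodd => ?_⟩
  set q := Nat.sqrt n with hq
  have hqR : 1000 + 100 * m + 2 * R ≤ q := by
    rw [hq, Nat.le_sqrt']; exact hn
  have hq1 : q ^ 2 ≤ n := Nat.sqrt_le' n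
  have hq2 : n < (q + 1) ^ 2 := Nat.lt_succ_sqrt' n
  have hn2 := Nat.odd_iff.1 hodd
  obtain ⟨e, he1, hpar⟩ : ∃ e : ℕ, e ≤ 1 ∧ ∀ x : ℕ, x % 2 = e →
      (n % 4 = 1 ∧ x % 2 = 0) ∨ (n % 4 = 3 ∧ x % 2 = 1) := by
    by_cases h : n % 4 = 1
    · exact ⟨0, by omega, fun x hx => Or.inl ⟨h, hx⟩⟩
    · exact ⟨1, by omega, fun x hx => Or.inr ⟨by omega, hx⟩⟩
  -- the residue modulo `2 m`
  obtain ⟨u, hu1, hu2, hu3⟩ : ∃ u : ℕ, u < 2 * m ∧ u % 2 = e ∧ u % m = h % m := by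
    have hcop : Nat.Coprime 2 m := (Nat.coprime_two_left).2 hm
    refine ⟨Nat.chineseRemainder hcop e h, Nat.chineseRemainder_lt_mul hcop e h (by norm_num) hm0.ne', ?_, ?_⟩
    · have := (Nat.chineseRemainder hcop e h).2.1
      have h2 : (Nat.chineseRemainder hcop e h : ℕ) % 2 = e % 2 := this
      omega
    · exact (Nat.chineseRemainder hcop e h).2.2
  set k0 := 4 * (q + 1) / (10 * m) + 1 with hk0
  set J := q / (20 * m) with hJ
  have hk1 : 4 * (q + 1) ≤ 10 * (m * k0) := by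
    have h1 := Nat.lt_mul_div_succ (4 * (q + 1)) (show 0 < 10 * m by omega)
    rw [← hk0] at h1
    have e : 10 * m * k0 = 10 * (m * k0) := by ring
    omega
  have hk2 : 10 * (m * k0) ≤ 4 * (q + 1) + 10 * m := by
    have h1 := Nat.mul_div_le (4 * (q + 1)) (10 * m)
    have e : 10 * (m * k0) = 10 * m * (4 * (q + 1) / (10 * m)) + 10 * m := by rw [hk0]; ring
    omega
  have hJ1 : 20 * (m * J) ≤ q := by
    have h1 := Nat.mul_div_le q (20 * m)
    rw [← hJ] at h1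
    have e : 20 * (m * J) = 20 * m * J := by ring
    omega
  have hJ2 : q < 20 * (m * J) + 20 * m := by
    have h1 := Nat.lt_mul_div_succ q (show 0 < 20 * m by omega)
    rw [← hJ] at h1
    have e : 20 * m * (J + 1) = 20 * (m * J) + 20 * m := by ring
    omega
  have hJm : J ≤ m * J := Nat.le_mul_of_pos_left J hm0
  set x0 := u + 2 * (m * k0) with hx0
  have hxj : ∀ j : ℕ, (x0 + 2 * (m * j)) % m = h % m ∧ (x0 + 2 * (m * j)) % 2 = e := by
    intro j
    constructor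
    · have e1 : x0 + 2 * (m * j) = u + m * (2 * k0 + 2 * j) := by rw [hx0]; ring
      rw [e1, Nat.add_mul_mod_self_left]
      exact hu3
    · rw [hx0]; omega
  have hex : ∀ j : ℕ, j < J → ∃ y z w : ℕ, (x0 + 2 * (m * j)) ^ 2 + y ^ 2 + z ^ 2 + 4 * w ^ 2 = n ∧
      6 * y ≤ 5 * (x0 + 2 * (m * j)) ∧ 6 * z ≤ 5 * (x0 + 2 * (m * j)) := by
    intro j hj
    have hjJ : m * j ≤ m * J := Nat.mul_le_mul_left m hj.le
    have hr1 : 4 * (q + 1) ≤ 5 * (x0 + 2 * (m * j)) := by omega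
    have hr2 : x0 + 2 * (m * j) ≤ q := by omega
    refine split_two (hpar _ (hxj j).2) ?_ ?_
    · have h3 : (4 * (q + 1)) ^ 2 ≤ (5 * (x0 + 2 * (m * j))) ^ 2 := Nat.pow_le_pow_left hr1 2
      nlinarith
    · exact (Nat.pow_le_pow_left hr2 2).trans hq1
  choose! y z w hs using hex
  refine ⟨J, x0, fun j => x0 + 2 * (m * j), y, z, ?_, ?_, ?_, ?_, ?_, ?_, ?_, ?_⟩
  · omega
  · have h1 : x0 ≤ 40 * (m * J) := by omega
    have h2 : (x0 : ℝ) ≤ ((40 * (m * J) : ℕ) : ℝ) := by exact_mod_cast h1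
    push_cast at h2
    linarith
  · omega
  · intro j hj
    have hjJ : m * j ≤ m * J := Nat.mul_le_mul_left m hj.le
    constructor <;> omega
  · intro i j hij _
    have : m * i < m * j := Nat.mul_lt_mul_of_pos_left hij hm0
    show x0 + 2 * (m * i) < x0 + 2 * (m * j)
    omega
  · intro j hj
    exact (hs j hj).2.1
  · intro j hj
    exact (hs j hj).2.2
  · intro j hj t ht htN hp
    obtain ⟨h3, h4, h5⟩ := hs j hj
    rw [NN_yc zero_le_one (by omega) htN, one_mul] at hp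
    refine ⟨x0 + 2 * (m * j), y j, z j, w j, (hxj j).1, h4, h5, h3, ?_⟩
    rw [exp_pow', exp_pow', exp_pow']
    exact hp

lemma measurable_Adm3 (m h n : ℕ) : MeasurableSet {β : ℝ | Adm3 m h β n} := by
  have e : {β : ℝ | Adm3 m h β n} = ⋃ x : ℕ, ⋃ y : ℕ, ⋃ z : ℕ, ⋃ w : ℕ,
      {β : ℝ | x % m = h % m ∧ 6 * y ≤ 5 * x ∧ 6 * z ≤ 5 * x ∧
        x ^ 2 + y ^ 2 + z ^ 2 + 4 * w ^ 2 = n ∧ (⌊β ^ x + β ^ y + β ^ z⌋₊ + 1).Prime} := by
    ext β
    simp only [Adm3, Set.mem_iUnion, Set.mem_ofPred_eq]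
  rw [e]
  refine MeasurableSet.iUnion fun x => MeasurableSet.iUnion fun y => MeasurableSet.iUnion fun z =>
    MeasurableSet.iUnion fun w => ?_
  have hm : Measurable fun β : ℝ => ⌊β ^ x + β ^ y + β ^ z⌋₊ :=
    Nat.measurable_floor.comp (by fun_prop)
  exact (MeasurableSet.const _).inter ((MeasurableSet.const _).inter ((MeasurableSet.const _).inter
    ((MeasurableSet.const _).inter (hm (MeasurableSet.of_discrete (s := {k : ℕ | (k + 1).Prime}))))))

/-- the measure of the good bases -/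
theorem three_measure {m : ℕ} (hm : Odd m) (h : ℕ) {A B : ℝ} (hA : 1 < A) (hAB : A < B) :
    ∃ c : ℝ, 0 < c ∧ ∀ u v : ℝ, A ≤ u → u < v → v ≤ B → ∃ n0 : ℕ, ∀ n ≥ n0, Odd n →
      c * (v - u) ≤ volume.real ({β : ℝ | Adm3 m h β n} ∩ Ioc u v) := by
  have hA0 : 0 < A := by linarith
  have hm0 : (0 : ℝ) < m := by exact_mod_cast hm.pos
  obtain ⟨c, hc, hmm⟩ := gen_measure (η := 1) (L := 40 * m) zero_le_one le_rfl (by positivity)
    (NS_null zero_le_one) (good_three hm h) (Real.log_pos hA) (Real.log_lt_log hA0 hAB)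
  have hB0 : 0 < B := by linarith
  refine ⟨c / B, by positivity, fun u v hu huv hv => ?_⟩
  have hu0 : 0 < u := by linarith
  have hv0 : 0 < v := by linarith
  obtain ⟨n0, hn0⟩ := hmm (Real.log u) (Real.log v) (Real.log_le_log hA0 hu) (Real.log_lt_log hu0 huv)
    (Real.log_le_log hv0 hv)
  refine ⟨n0, fun n hn hodd => ?_⟩
  have h1 := base_measure (measurable_Adm3 m h n) (by linarith) huv (hn0 n hn hodd)
  refine le_trans ?_ h1
  have h2 := log_sub_ge hu0 huv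
  have h3 : (v - u) / B ≤ (v - u) / v := div_le_div_of_nonneg_left (by linarith) hv0 hv
  have h4 : c * ((v - u) / B) ≤ c * (Real.log v - Real.log u) :=
    mul_le_mul_of_nonneg_left (by linarith) hc.le
  have h5 : 0 ≤ c * (Real.log v - Real.log u) := le_trans (by
    have : 0 ≤ (v - u) / B := div_nonneg (by linarith) hB0.le
    positivity) h4
  calc c / B * (v - u) = c * ((v - u) / B) := by ring
    _ ≤ c * (Real.log v - Real.log u) := h4
    _ = 1 * (c * (Real.log v - Real.log u)) := (one_mul _).symm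
    _ ≤ _ := mul_le_mul_of_nonneg_right (by linarith) h5

/-- positive upper density for almost every base -/
theorem three_density {m : ℕ} (hm : Odd m) (h : ℕ) {u : ℕ → ℕ} (hu : ∀ k, Odd (u k))
    (hut : Tendsto u atTop atTop) :
    ∀ᵐ β : ℝ, 1 < β → ∃ c : ℝ, 0 < c ∧
      ∃ᶠ K : ℕ in atTop, c * K ≤ cnt (fun k => {β : ℝ | Adm3 m h β (u k)}) K β := by
  have hm0 : (0 : ℝ) < m := by exact_mod_cast hm.pos
  have h1 := gen_density (η := 1) (L := 40 * m) zero_le_one le_rfl (by positivity)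
    (NS_null zero_le_one) (good_three hm h) (G := fun n => {t : ℝ | Adm3 m h (Real.exp t) n})
    (fun n => Real.measurable_exp (measurable_Adm3 m h n)) hu hut
  have h2 : ∀ᵐ t : ℝ, 1 < Real.exp t → ∃ c : ℝ, 0 < c ∧
      ∃ᶠ K : ℕ in atTop, c * K ≤ cnt (fun k => {β : ℝ | Adm3 m h β (u k)}) K (Real.exp t) := by
    filter_upwards [h1] with t ht ht1
    exact ht (by rwa [Real.one_lt_exp_iff] at ht1)
  have h3 := Pool.Agent.W66X.ae_of_exp' (P := fun β => 1 < β → ∃ c : ℝ, 0 < c ∧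
      ∃ᶠ K : ℕ in atTop, c * K ≤ cnt (fun k => {β : ℝ | Adm3 m h β (u k)}) K β) h2
  filter_upwards [h3] with β hβ hβ1
  exact hβ (by linarith) hβ1

end Pool.Agent.X37.RB
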